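import Pool.Agent.UGen.Path

set_option autoImplicit false
open Filter

namespace Pool.Agent.UGen

lemma hit_mono {e s t t' : ℕ} (h : t ≤ t') (ht : hit e s t = true) : hit e s t' = true := by
  unfold hit at *
  simp only [decide_eq_true_eq] at *
  obtain ⟨p, hp, h1, h2⟩ := ht
  exact ⟨p, by omega, h1, Ws_mono h h2⟩

lemma tail_drop_len (b : Bool) (s : ℕ) (rest : List (Bool × ℕ)) :
    ((((b, s) :: rest).dropWhile (fun x => x.1)).tail).length ≤ rest.length := by
  have h := (List.dropWhile_suffix (fun x : Bool × ℕ => x.1) (l := (b, s) :: rest)).length_le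
  simp only [List.length_tail, List.length_cons] at *
  omega

lemma len_le (e : ℕ) : ∀ t, (St e t).length ≤ t + 1 := by
  intro t
  induction t with
  | zero => simp [St]
  | succ t ih =>
    have hS : St e (t + 1) = step e t (St e t) := rfl
    rcases step_cases e t (St e t) with ⟨h1, _⟩ | ⟨b, s, rest, h2, _, h4⟩
    · rw [hS, h1]; simp only [List.length_cons]; omega
    · rw [hS, h4]
      have := tail_drop_len b s rest
      have h5 := h2.length_le
      simp only [List.length_cons] at *
      omega

lemma unhit {e : ℕ} (hS : ∀ t, GoodStep (St e) t) (T : ℕ)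
    (hall : ∀ s ≥ T, ∃ u, hit e s u = true) : False := by
  obtain ⟨τ, hτ, t0, ht0⟩ := stab hS (T + 1)
  cases τ with
  | nil => simp at hτ
  | cons x rest =>
    obtain ⟨b, s⟩ := x
    have h1 := birth e t0 b s rest (ht0 t0 le_rfl)
    have h2 := len_le e s
    rw [h1, hτ] at h2
    obtain ⟨u, hu⟩ := hall s (by omega)
    set t1 := max t0 u with ht1
    have hdec : ∀ t ≥ t1, (St e t).length ≤ (St e t1).length := by
      intro t ht
      induction t, ht using Nat.le_induction with
      | base => exact le_rfl
      | succ t ht ih =>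
        have hSt : St e (t + 1) = step e t (St e t) := rfl
        have hmem : (b, s) ∈ St e t := (ht0 t (by omega)).subset (by simp)
        rcases step_cases e t (St e t) with ⟨_, h3⟩ | ⟨b', s', rest', h3, _, h4⟩
        · have h5 := h3 _ hmem
          have h6 := hit_mono (show u ≤ t by omega) hu
          simp only at h5
          rw [h5] at h6; exact absurd h6 (by simp)
        · rw [hSt, h4]
          have h5 := tail_drop_len b' s' rest'
          have h6 := h3.length_le
          simp only [List.length_cons] at *
          omega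
    obtain ⟨τ', hτ', t2, ht2⟩ := stab hS ((St e t1).length + 1)
    have h3 := (ht2 (max t1 t2) (le_max_right _ _)).length_le
    have h4 := hdec (max t1 t2) (le_max_left _ _)
    omega

lemma St_ne (e t : ℕ) : St e t ≠ [] := by
  cases t with
  | zero => simp [St]
  | succ t =>
    have hS : St e (t + 1) = step e t (St e t) := rfl
    rcases step_cases e t (St e t) with ⟨h1, _⟩ | ⟨b, s, rest, h2, _, h4⟩
    · rw [hS, h1]; simp
    · rw [hS, h4]; simp

lemma bit_zero_cons {x : Bool × ℕ} {l : List (Bool × ℕ)} (h : l ≠ []) :
    bit (x :: l) 0 = bit l 0 :=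
  bit_of_suffix (List.suffix_cons x l) (List.length_pos_iff.2 h)

lemma bottom_true {e t : ℕ} (h : bit (St e t) 0 = some true) :
    bit (St e (t + 1)) 0 = some true := by
  have hS : St e (t + 1) = step e t (St e t) := rfl
  rcases step_cases e t (St e t) with ⟨h1, _⟩ | ⟨b, s, rest, h2, _, h4⟩
  · rw [hS, h1, bit_zero_cons (St_ne e t)]; exact h
  · rw [hS, h4]
    by_cases hr : (((b, s) :: rest).dropWhile (fun x => x.1)).tail = []
    · rw [hr]; simp [bit]
    · rw [bit_zero_cons hr]
      have hsuf : (((b, s) :: rest).dropWhile (fun x => x.1)).tail <:+ St e t :=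
        (List.tail_suffix _).trans ((List.dropWhile_suffix _).trans h2)
      rw [← bit_of_suffix hsuf (List.length_pos_iff.2 hr)]
      exact h

lemma bit_zero_all_true {l : List (Bool × ℕ)} (hl : l ≠ []) (h : ∀ x ∈ l, x.1 = true) :
    bit l 0 = some true := by
  induction l with
  | nil => exact absurd rfl hl
  | cons x l ih =>
    by_cases hl' : l = []
    · subst hl'
      have := h x (by simp)
      simp [bit, this]
    · rw [bit_zero_cons hl']
      exact ih hl' fun y hy => h y (by simp [hy])

lemma good_of_bottom {e t : ℕ} (h : bit (St e t) 0 ≠ some true) : GoodStep (St e) t := by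
  have hS : St e (t + 1) = step e t (St e t) := rfl
  rcases step_cases e t (St e t) with ⟨h1, _⟩ | ⟨b, s, rest, h2, _, h4⟩
  · left; rw [hS, h1]
  · right
    cases hd : ((b, s) :: rest).dropWhile (fun x => x.1) with
    | nil =>
      exfalso
      have h5 := List.dropWhile_eq_nil_iff.1 hd
      have h6 : bit ((b, s) :: rest) 0 = some true := bit_zero_all_true (by simp) h5
      rw [← bit_of_suffix h2 (by simp)] at h6
      exact h h6
    | cons y rest' =>
      obtain ⟨b', s'⟩ := y
      have h5 := dropWhile_head hd
      simp only at h5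
      subst h5
      refine ⟨s', rest', ?_, ?_⟩
      · rw [← hd]; exact (List.dropWhile_suffix _).trans h2
      · rw [hS, h4, hd]; rfl

theorem case2 (A : Set ℕ)
    (hA : ∀ a : ℕ → ℕ → Bool, Computable₂ a → (∀ i, ∃ t0, ∀ t ≥ t0, a t i = a t0 i) →
      ¬ D1 {i | ∃ t0, ∀ t ≥ t0, (a t i = true ↔ i ∈ A)}) : Concl A := by
  refine reduce A RS primrec_RS.computablePred.to_re ?_ ?_
  · intro X hX
    obtain ⟨z0, hz0⟩ := hX.nonempty
    apply D1_of_types
    · intro n
      rw [← Pn_card n]
      apply Set.ncard_le_ncard _ (Pn_fin n)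
      rintro p ⟨hp1, hp2⟩
      have h1 : ¬ RS p z0 := fun h => hp1 ⟨z0, hz0, h⟩
      unfold RS at h1
      push Not at h1
      obtain ⟨n', _, h2, _⟩ := h1
      have h3 := J_unique (Pn_mem_J h2) hp2
      subst h3
      exact h2
    · intro e ε hε
      have claim : ∃ T, ∀ t ≥ T, ∃ z ∈ X, conf (St e t) z = true := by
        by_contra hcon
        push Not at hcon
        have hbot : ∀ t, bit (St e t) 0 ≠ some true := by
          intro t ht
          obtain ⟨t', ht', h1⟩ := hcon t
          have h2 : ∀ t' ≥ t, bit (St e t') 0 = some true := by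
            intro t' ht'
            induction t', ht' using Nat.le_induction with
            | base => exact ht
            | succ t' _ ih => exact bottom_true ih
          apply h1 z0 hz0
          unfold conf
          rw [h2 t' ht']; simp
        have hgood : ∀ t, GoodStep (St e) t := fun t => good_of_bottom (hbot t)
        refine hA (fun t i => decide (bit (St e t) (i + 1) = some true)) ?_ ?_ ?_
        · apply Primrec₂.to_comp
          apply PrimrecRel.decide
          apply Primrec.eq.comp
          · exact primrec_bit.comp (primrec_St.comp (Primrec.const e) Primrec.fst)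
              (Primrec.succ.comp Primrec.snd)
          · exact Primrec.const (some true)
        · intro i
          obtain ⟨τ, hτ, t0, ht0⟩ := stab hgood (i + 2)
          refine ⟨t0, fun t ht => ?_⟩
          rw [bit_of_suffix (ht0 t ht) (by omega), bit_of_suffix (ht0 t0 le_rfl) (by omega)]
        · refine hX.dom.mono ?_
          rintro i ⟨j, hj⟩
          obtain ⟨τ, hτ, t0, ht0⟩ := stab hgood (i + 2)
          refine ⟨t0, fun t ht => ?_⟩
          obtain ⟨t', ht', h1⟩ := hcon t0
          have h2 := h1 _ hj
          rw [bit_of_suffix (ht0 t ht) (by omega)]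
          have h3 : ¬ (bit (St e t') (i + 1) = some (!decide (j = 1))) := by
            intro h3
            apply h2
            unfold conf
            simp only [Nat.unpair_pair, Bool.or_eq_true, decide_eq_true_eq]
            exact Or.inr h3
          rw [bit_of_suffix (ht0 t' ht') (by omega)] at h3
          -- the bit exists
          obtain ⟨b, hb⟩ : ∃ b, bit τ (i + 1) = some b := by
            unfold bit
            rw [List.getElem?_eq_getElem (by simp; omega)]
            exact ⟨_, rfl⟩
          rw [hb] at h3 ⊢
          obtain ⟨i', j', hij, h4⟩ := hX.1 _ hj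
          obtain ⟨rfl, rfl⟩ := Nat.pair_eq_pair.1 hij
          rcases h4 with ⟨rfl, h4⟩ | ⟨rfl, h4⟩
          · cases b <;> simp_all
          · cases b <;> simp_all
      obtain ⟨T, hT⟩ := claim
      refine ⟨T, fun t ht => ?_⟩
      obtain ⟨z, hz, hc⟩ := hT t ht
      have h1 : ({p | ∃ z ∈ X, RS p z}ᶜ ∩ J (Nat.pair e t)) = ∅ := by
        rw [Set.eq_empty_iff_forall_notMem]
        rintro p ⟨hp1, hp2⟩
        apply hp1
        refine ⟨z, hz, ?_⟩
        intro n _ hn
        have h3 := J_unique (Pn_mem_J hn) hp2
        subst h3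
        simpa using hc
      rw [h1]
      simp
      positivity
  · intro e hW hD
    have H : ∀ s t, hit e s t = true → ¬ Ag (sh A) (St e s) := by
      intro s t h
      unfold hit at h
      simp only [decide_eq_true_eq] at h
      obtain ⟨p, _, h1, h2⟩ := h
      obtain ⟨z, hz, h3⟩ := hW p ⟨t, h2⟩
      have h4 := h3 _ (Pn_lt h1) h1
      simp only [Nat.unpair_pair] at h4
      exact conf_not_Ag hz h4
    have h0 : (0 : ℕ) ∉ sh A := by rintro ⟨i, _, hi⟩; omega
    have hgood : ∀ t, GoodStep (St e) t := fun t => (inv h0 H t).2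
    obtain ⟨N, hN⟩ := block_of_D1 hD ((1 / 2) ^ (e + 1)) (by positivity)
    refine unhit hgood N ?_
    intro s hs
    by_contra hno
    push Not at hno
    set n := Nat.pair e s with hn
    have hsn : s ≤ n := Nat.right_le_pair e s
    have hen : e ≤ n := Nat.left_le_pair e s
    have h1 := hN n (by omega)
    have h2 : {p | Pn n p} ⊆ ({p | W e p}ᶜ ∩ J n) := by
      intro p hp
      refine ⟨?_, Pn_mem_J hp⟩
      rintro ⟨u, hu⟩
      apply hno u
      unfold hit
      simp only [decide_eq_true_eq]
      exact ⟨p, Ws_lt hu, hp, hu⟩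
    have h3 := Set.ncard_le_ncard h2 ((J_fin n).subset Set.inter_subset_right)
    rw [Pn_card] at h3
    have h4 : n.unpair.1 = e := by rw [hn]; simp
    rw [h4] at h3
    have h5 : ((2 : ℝ) ^ (n - e)) ≤ (1 / 2) ^ (e + 1) * 2 ^ n := by
      refine le_trans ?_ h1
      exact_mod_cast h3
    have h6 : (2 : ℝ) ^ n = 2 ^ (n - e) * 2 ^ e := by rw [← pow_add]; congr 1; omega
    rw [h6, pow_succ, one_div, inv_pow] at h5
    have h7 : ((2 : ℝ) ^ e)⁻¹ * 2⁻¹ * (2 ^ (n - e) * 2 ^ e) = 2 ^ (n - e) / 2 := by
      field_simp
    rw [h7] at h5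
    have h8 : (0 : ℝ) < 2 ^ (n - e) := by positivity
    linarith

end Pool.Agent.UGen
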