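import Pool.Agent.UGen.Case1c
import Pool.Agent.UGen.Case2

set_option autoImplicit false
open Filter

namespace Pool.Agent.UGen

/-- Every set that is not generically computable bounds, in the uniform generic degrees, a
density-one set that is not generically computable. -/
theorem main (A : Set ℕ) (hA : ¬ GC A) : Concl A := by
  by_cases h : ∃ a : ℕ → ℕ → Bool, Computable₂ a ∧ (∀ i, ∃ t0, ∀ t ≥ t0, a t i = a t0 i) ∧
      D1 {i | ∃ t0, ∀ t ≥ t0, (a t i = true ↔ i ∈ A)}
  · obtain ⟨a, h1, h2, h3⟩ := h
    exact case1 A hA a h1 h2 h3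
  · push Not at h
    exact case2 A fun a h1 h2 => h a h1 h2

end Pool.Agent.UGen
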