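import Mathlib

set_option autoImplicit false
open Filter
open Nat.Partrec (Code)

namespace Pool.Agent.UGen

/-- asymptotic density one, in the form used in the statement -/
def D1 (S : Set ℕ) : Prop :=
  Tendsto (fun m : ℕ => (((S ∩ Set.Iio m).ncard : ℝ) / (m : ℝ))) atTop (nhds 1)

lemma fin_inter (S : Set ℕ) (m : ℕ) : (S ∩ Set.Iio m).Finite :=
  (Set.finite_Iio m).subset Set.inter_subset_right

lemma card_compl (S : Set ℕ) (m : ℕ) :
    (S ∩ Set.Iio m).ncard + (Sᶜ ∩ Set.Iio m).ncard = m := by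
  have h1 : (S ∩ Set.Iio m) ∪ (Sᶜ ∩ Set.Iio m) = Set.Iio m := by
    ext x; by_cases hx : x ∈ S <;> simp [hx]
  have h2 : Disjoint (S ∩ Set.Iio m) (Sᶜ ∩ Set.Iio m) := by
    rw [Set.disjoint_left]; rintro x ⟨hx, _⟩ ⟨hx', _⟩; exact hx' hx
  rw [← Set.ncard_union_eq h2 (fin_inter _ _) (fin_inter _ _), h1]
  rw [Set.ncard_eq_toFinset_card' (Set.Iio m)]; simp

lemma D1_iff (S : Set ℕ) :
    D1 S ↔ ∀ ε : ℝ, 0 < ε → ∃ M : ℕ, ∀ m ≥ M, ((Sᶜ ∩ Set.Iio m).ncard : ℝ) ≤ ε * m := by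
  unfold D1
  rw [Metric.tendsto_atTop]
  constructor
  · intro h ε hε
    obtain ⟨N, hN⟩ := h ε hε
    refine ⟨max N 1, fun m hm => ?_⟩
    have h1 := hN m (le_trans (le_max_left _ _) hm)
    have hm1 : (0 : ℝ) < m := by
      have : 1 ≤ m := le_trans (le_max_right _ _) hm
      exact_mod_cast this
    have h2 : ((S ∩ Set.Iio m).ncard : ℝ) + ((Sᶜ ∩ Set.Iio m).ncard : ℝ) = m := by
      exact_mod_cast card_compl S m
    rw [Real.dist_eq, abs_lt] at h1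
    have h3 := h1.1
    have h4 : ((S ∩ Set.Iio m).ncard : ℝ) / m > 1 - ε := by linarith
    rw [gt_iff_lt, lt_div_iff₀ hm1] at h4
    nlinarith
  · intro h ε hε
    obtain ⟨N, hN⟩ := h (ε / 2) (by positivity)
    refine ⟨max N 1, fun m hm => ?_⟩
    have h1 := hN m (le_trans (le_max_left _ _) hm)
    have hm1 : (0 : ℝ) < m := by
      have : 1 ≤ m := le_trans (le_max_right _ _) hm
      exact_mod_cast this
    have h2 : ((S ∩ Set.Iio m).ncard : ℝ) + ((Sᶜ ∩ Set.Iio m).ncard : ℝ) = m := by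
      exact_mod_cast card_compl S m
    have h0 : (0 : ℝ) ≤ ((Sᶜ ∩ Set.Iio m).ncard : ℝ) := by positivity
    rw [Real.dist_eq, abs_lt]
    have h5 : ((S ∩ Set.Iio m).ncard : ℝ) / m - 1 = - (((Sᶜ ∩ Set.Iio m).ncard : ℝ) / m) := by
      field_simp; linarith
    have h6 : ((Sᶜ ∩ Set.Iio m).ncard : ℝ) / m ≤ ε / 2 := by
      rw [div_le_iff₀ hm1]; exact h1
    have h7 : 0 ≤ ((Sᶜ ∩ Set.Iio m).ncard : ℝ) / m := by positivity
    rw [h5]
    constructor <;> linarith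

lemma D1.mono {S T : Set ℕ} (hS : D1 S) (h : S ⊆ T) : D1 T := by
  rw [D1_iff] at hS ⊢
  intro ε hε
  obtain ⟨M, hM⟩ := hS ε hε
  refine ⟨M, fun m hm => le_trans ?_ (hM m hm)⟩
  have : (Tᶜ ∩ Set.Iio m).ncard ≤ (Sᶜ ∩ Set.Iio m).ncard :=
    Set.ncard_le_ncard (by
      rintro x ⟨h1, h2⟩
      exact ⟨fun hx => h1 (h hx), h2⟩) (fin_inter _ _)
  exact_mod_cast this

lemma D1.inter {S T : Set ℕ} (hS : D1 S) (hT : D1 T) : D1 (S ∩ T) := by
  rw [D1_iff] at hS hT ⊢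
  intro ε hε
  obtain ⟨M, hM⟩ := hS (ε / 2) (by positivity)
  obtain ⟨N, hN⟩ := hT (ε / 2) (by positivity)
  refine ⟨max M N, fun m hm => ?_⟩
  have h1 := hM m (le_trans (le_max_left _ _) hm)
  have h2 := hN m (le_trans (le_max_right _ _) hm)
  have h3 : ((S ∩ T)ᶜ ∩ Set.Iio m).ncard ≤ (Sᶜ ∩ Set.Iio m).ncard + (Tᶜ ∩ Set.Iio m).ncard := by
    refine le_trans (Set.ncard_le_ncard (t := (Sᶜ ∩ Set.Iio m) ∪ (Tᶜ ∩ Set.Iio m)) ?_ ?_)
      (Set.ncard_union_le _ _)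
    · rintro x ⟨h1, h2⟩
      by_cases hx : x ∈ S
      · right; exact ⟨fun hx' => h1 ⟨hx, hx'⟩, h2⟩
      · left; exact ⟨hx, h2⟩
    · exact (fin_inter _ _).union (fin_inter _ _)
  have h4 : (((S ∩ T)ᶜ ∩ Set.Iio m).ncard : ℝ) ≤
      ((Sᶜ ∩ Set.Iio m).ncard : ℝ) + ((Tᶜ ∩ Set.Iio m).ncard : ℝ) := by exact_mod_cast h3
  linarith

lemma D1.nonempty {S : Set ℕ} (hS : D1 S) : S.Nonempty := by
  rw [D1_iff] at hS
  obtain ⟨M, hM⟩ := hS (1 / 2) (by norm_num)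
  by_contra hne
  rw [Set.not_nonempty_iff_eq_empty] at hne
  have h1 := hM (M + 1) (by omega)
  have h2 := card_compl S (M + 1)
  rw [hne] at h1 h2
  have h3 : ((∅ : Set ℕ) ∩ Set.Iio (M + 1)).ncard = 0 := by simp
  rw [h3, zero_add] at h2
  rw [h2] at h1
  push_cast at h1
  have : (0 : ℝ) ≤ M := by positivity
  linarith

/-- the dyadic block -/
def J (n : ℕ) : Set ℕ := Set.Ico (2 ^ n) (2 ^ (n + 1))

lemma J_fin (n : ℕ) : (J n).Finite := Set.finite_Ico _ _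

lemma block_of_D1 {S : Set ℕ} (h : D1 S) (ε : ℝ) (hε : 0 < ε) :
    ∃ N : ℕ, ∀ n ≥ N, ((Sᶜ ∩ J n).ncard : ℝ) ≤ ε * 2 ^ n := by
  rw [D1_iff] at h
  obtain ⟨M, hM⟩ := h (ε / 2) (by positivity)
  refine ⟨M, fun n hn => ?_⟩
  have h1 := hM (2 ^ (n + 1)) (by
    have : n < 2 ^ n := Nat.lt_two_pow_self
    have : 2 ^ n ≤ 2 ^ (n + 1) := Nat.pow_le_pow_right (by norm_num) (by omega)
    omega)
  have h2 : (Sᶜ ∩ J n).ncard ≤ (Sᶜ ∩ Set.Iio (2 ^ (n + 1))).ncard :=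
    Set.ncard_le_ncard (by
      rintro x ⟨h1, h2⟩; exact ⟨h1, h2.2⟩) (fin_inter _ _)
  have h3 : ((Sᶜ ∩ J n).ncard : ℝ) ≤ ((Sᶜ ∩ Set.Iio (2 ^ (n + 1))).ncard : ℝ) := by
    exact_mod_cast h2
  push_cast at h1
  calc ((Sᶜ ∩ J n).ncard : ℝ) ≤ _ := h3
    _ ≤ ε / 2 * 2 ^ (n + 1) := h1
    _ = ε * 2 ^ n := by rw [pow_succ]; ring

lemma D1_of_blocks {S : Set ℕ}
    (h : ∀ ε : ℝ, 0 < ε → ∃ N : ℕ, ∀ n ≥ N, ((Sᶜ ∩ J n).ncard : ℝ) ≤ ε * 2 ^ n) : D1 S := by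
  rw [D1_iff]
  intro ε hε
  obtain ⟨N, hN⟩ := h (ε / 4) (by positivity)
  have key : ∀ k ≥ N, ((Sᶜ ∩ Set.Iio (2 ^ k)).ncard : ℝ) ≤ 2 ^ N + (ε / 4) * 2 ^ k := by
    intro k hk
    induction k, hk using Nat.le_induction with
    | base =>
      have h1 := card_compl S (2 ^ N)
      have h2 : (Sᶜ ∩ Set.Iio (2 ^ N)).ncard ≤ 2 ^ N := by omega
      have h3 : ((Sᶜ ∩ Set.Iio (2 ^ N)).ncard : ℝ) ≤ 2 ^ N := by exact_mod_cast h2
      have : 0 ≤ (ε / 4) * 2 ^ N := by positivity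
      linarith
    | succ k hk ih =>
      have h1 : (Sᶜ ∩ Set.Iio (2 ^ (k + 1))).ncard ≤
          (Sᶜ ∩ Set.Iio (2 ^ k)).ncard + (Sᶜ ∩ J k).ncard := by
        refine le_trans (Set.ncard_le_ncard (t := (Sᶜ ∩ Set.Iio (2 ^ k)) ∪ (Sᶜ ∩ J k)) ?_ ?_)
          (Set.ncard_union_le _ _)
        · rintro x ⟨hx1, hx2⟩
          by_cases hx : x < 2 ^ k
          · left; exact ⟨hx1, hx⟩
          · right; exact ⟨hx1, by simpa using hx, hx2⟩
        · exact (fin_inter _ _).union ((J_fin k).subset Set.inter_subset_right)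
      have h2 : ((Sᶜ ∩ Set.Iio (2 ^ (k + 1))).ncard : ℝ) ≤
          ((Sᶜ ∩ Set.Iio (2 ^ k)).ncard : ℝ) + ((Sᶜ ∩ J k).ncard : ℝ) := by exact_mod_cast h1
      have h3 := hN k hk
      have h4 : (2 : ℝ) ^ (k + 1) = 2 * 2 ^ k := by rw [pow_succ]; ring
      rw [h4]
      linarith
  obtain ⟨M0, hM0⟩ := exists_nat_gt ((2 : ℝ) ^ N / (ε / 2))
  refine ⟨max M0 (2 ^ N), fun m hm => ?_⟩
  have hmN : 2 ^ N ≤ m := le_trans (le_max_right _ _) hm
  have hm0 : M0 ≤ m := le_trans (le_max_left _ _) hm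
  have hmpos : m ≠ 0 := by
    have : 0 < 2 ^ N := by positivity
    omega
  set k := Nat.log 2 m + 1 with hk
  have h1 : m < 2 ^ k := Nat.lt_pow_succ_log_self (by norm_num) m
  have h2 : 2 ^ k ≤ 2 * m := by
    have := Nat.pow_log_le_self 2 hmpos
    rw [hk, pow_succ]; omega
  have hkN : N ≤ k := by
    by_contra hlt
    have h3 : k ≤ N := by omega
    have : 2 ^ k ≤ 2 ^ N := Nat.pow_le_pow_right (by norm_num) h3
    omega
  have h4 : ((Sᶜ ∩ Set.Iio m).ncard : ℝ) ≤ ((Sᶜ ∩ Set.Iio (2 ^ k)).ncard : ℝ) := by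
    have : (Sᶜ ∩ Set.Iio m).ncard ≤ (Sᶜ ∩ Set.Iio (2 ^ k)).ncard :=
      Set.ncard_le_ncard (by
        rintro x ⟨hx1, hx2⟩
        refine ⟨hx1, ?_⟩
        simp only [Set.mem_Iio] at hx2 ⊢
        omega) (fin_inter _ _)
    exact_mod_cast this
  have h5 := key k hkN
  have h6 : ((2 : ℝ) ^ k) ≤ 2 * m := by exact_mod_cast h2
  have h7 : (2 : ℝ) ^ N ≤ (ε / 2) * m := by
    have h8 : (M0 : ℝ) ≤ m := by exact_mod_cast hm0
    have h9 : (2 : ℝ) ^ N / (ε / 2) < m := lt_of_lt_of_le hM0 h8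
    rw [div_lt_iff₀ (by positivity)] at h9
    linarith
  have h10 : (ε / 4) * 2 ^ k ≤ (ε / 4) * (2 * m) := by
    apply mul_le_mul_of_nonneg_left h6 (by positivity)
  linarith

/-- the set of blocks of type `e` carries weight `2^{-e}`; if in every type the missing
proportion tends to zero then the whole set has density one. -/
lemma D1_of_types {S : Set ℕ}
    (h1 : ∀ n : ℕ, (Sᶜ ∩ J n).ncard ≤ 2 ^ (n - n.unpair.1))
    (h2 : ∀ (e : ℕ) (ε : ℝ), 0 < ε → ∃ T : ℕ, ∀ t ≥ T,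
      ((Sᶜ ∩ J (Nat.pair e t)).ncard : ℝ) ≤ ε * 2 ^ (Nat.pair e t)) : D1 S := by
  apply D1_of_blocks
  intro ε hε
  obtain ⟨e0, he0⟩ := exists_pow_lt_of_lt_one hε (by norm_num : (1 / 2 : ℝ) < 1)
  choose T hT using fun e => h2 e ε hε
  -- bound for all exceptional blocks
  let N := (Finset.range e0).sup fun e => (Finset.range (T e)).sup fun t => Nat.pair e t
  refine ⟨N + 1, fun n hn => ?_⟩
  set e := n.unpair.1 with he
  set t := n.unpair.2 with ht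
  have hn' : Nat.pair e t = n := Nat.pair_unpair n
  by_cases hee : e < e0
  · have htT : T e ≤ t := by
      by_contra hlt
      have h3 : n ≤ N := by
        have h4 : Nat.pair e t ≤ (Finset.range (T e)).sup fun t => Nat.pair e t :=
          Finset.le_sup (f := fun t => Nat.pair e t) (Finset.mem_range.2 (by omega))
        have h5 : ((Finset.range (T e)).sup fun t => Nat.pair e t) ≤ N :=
          Finset.le_sup (f := fun e => (Finset.range (T e)).sup fun t => Nat.pair e t)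
            (Finset.mem_range.2 hee)
        rw [← hn']
        exact le_trans h4 h5
      omega
    have := hT e t htT
    rw [hn'] at this
    exact this
  · have h3 : ((Sᶜ ∩ J n).ncard : ℝ) ≤ 2 ^ (n - e) := by exact_mod_cast h1 n
    have hen : e ≤ n := Nat.unpair_left_le n
    have h4 : (2 : ℝ) ^ (n - e) = (1 / 2) ^ e * 2 ^ n := by
      have : (2 : ℝ) ^ n = 2 ^ (n - e) * 2 ^ e := by rw [← pow_add]; congr 1; omega
      rw [this, one_div, inv_pow]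
      field_simp
    rw [h4] at h3
    refine le_trans h3 ?_
    apply mul_le_mul_of_nonneg_right _ (by positivity)
    have : (1 / 2 : ℝ) ^ e ≤ (1 / 2) ^ e0 :=
      pow_le_pow_of_le_one (by norm_num) (by norm_num) (by omega)
    linarith

end Pool.Agent.UGen
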