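import Pool.Agent.UGen.Basic

set_option autoImplicit false
open Filter
open Nat.Partrec (Code)

namespace Pool.Agent.UGen

/-- `p` has entered the `e`-th c.e. set by stage `u` -/
def Ws (e u p : ℕ) : Bool := (Code.evaln u (Denumerable.ofNat Code e) p).isSome

/-- the `e`-th c.e. set -/
def W (e p : ℕ) : Prop := ∃ u, Ws e u p = true

lemma Ws_mono {e u v p : ℕ} (h : u ≤ v) (hu : Ws e u p = true) : Ws e v p = true := by
  unfold Ws at *
  rw [Option.isSome_iff_exists] at *
  obtain ⟨a, ha⟩ := hu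
  exact ⟨a, Code.evaln_mono h ha⟩

lemma Ws_lt {e u p : ℕ} (hu : Ws e u p = true) : p < u := by
  unfold Ws at *
  rw [Option.isSome_iff_exists] at *
  obtain ⟨a, ha⟩ := hu
  exact Code.evaln_bound ha

lemma exists_W {V : ℕ → Prop} (hV : REPred V) : ∃ e, ∀ p, V p ↔ W e p := by
  have h1 : Partrec fun a => (Part.assert (V a) fun _ => Part.some ()).map (fun _ => 0) :=
    Partrec.map hV (Computable.const 0).to₂
  have h2 := Partrec.nat_iff.1 h1
  obtain ⟨c, hc⟩ := Code.exists_code.1 h2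
  refine ⟨Encodable.encode c, fun p => ?_⟩
  unfold W Ws
  rw [Denumerable.ofNat_encode]
  have h3 : V p ↔ (Code.eval c p).Dom := by
    rw [hc]; simp [Part.assert]
  rw [h3, Part.dom_iff_mem]
  constructor
  · rintro ⟨y, hy⟩
    obtain ⟨k, hk⟩ := Code.evaln_complete.1 hy
    exact ⟨k, Option.isSome_iff_exists.2 ⟨y, hk⟩⟩
  · rintro ⟨k, hk⟩
    obtain ⟨y, hy⟩ := Option.isSome_iff_exists.1 hk
    exact ⟨y, Code.evaln_sound hy⟩

lemma primrec_Ws : Primrec fun q : ℕ × ℕ × ℕ => Ws q.1 q.2.1 q.2.2 := by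
  unfold Ws
  apply Primrec.option_isSome.comp
  have h := Code.primrec_evaln
  have h2 : Primrec fun q : ℕ × ℕ × ℕ => ((q.2.1, Denumerable.ofNat Code q.1), q.2.2) :=
    Primrec.pair (Primrec.pair (Primrec.fst.comp Primrec.snd)
      ((Primrec.ofNat Code).comp Primrec.fst)) (Primrec.snd.comp Primrec.snd)
  exact h.comp h2

/-- the active part of the `n`-th block -/
def Pn (n p : ℕ) : Prop := 2 ^ n ≤ p ∧ p < 2 ^ n + 2 ^ (n - n.unpair.1)

instance : DecidableRel Pn := fun n p => by unfold Pn; infer_instance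

lemma Pn_mem_J {n p : ℕ} (h : Pn n p) : p ∈ J n := by
  obtain ⟨h1, h2⟩ := h
  refine ⟨h1, lt_of_lt_of_le h2 ?_⟩
  have : 2 ^ (n - n.unpair.1) ≤ 2 ^ n := Nat.pow_le_pow_right (by norm_num) (by omega)
  rw [pow_succ]; omega

lemma J_unique {n m p : ℕ} (hn : p ∈ J n) (hm : p ∈ J m) : n = m := by
  obtain ⟨a1, a2⟩ := hn
  obtain ⟨b1, b2⟩ := hm
  by_contra hne
  rcases lt_or_gt_of_ne hne with h | h
  · have : 2 ^ (n + 1) ≤ 2 ^ m := Nat.pow_le_pow_right (by norm_num) (by omega)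
    omega
  · have : 2 ^ (m + 1) ≤ 2 ^ n := Nat.pow_le_pow_right (by norm_num) (by omega)
    omega

lemma Pn_lt {n p : ℕ} (h : Pn n p) : n < p :=
  lt_of_lt_of_le Nat.lt_two_pow_self h.1

lemma Pn_card (n : ℕ) : {p | Pn n p}.ncard = 2 ^ (n - n.unpair.1) := by
  have : {p | Pn n p} = Set.Ico (2 ^ n) (2 ^ n + 2 ^ (n - n.unpair.1)) := by
    ext p; simp [Pn]
  rw [this, Set.ncard_eq_toFinset_card' ]
  simp

lemma Pn_fin (n : ℕ) : {p | Pn n p}.Finite := by
  have : {p | Pn n p} = Set.Ico (2 ^ n) (2 ^ n + 2 ^ (n - n.unpair.1)) := by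
    ext p; simp [Pn]
  rw [this]; exact Set.finite_Ico _ _

/-- generic description (as a set of codes) -/
def IsDesc (A X : Set ℕ) : Prop :=
  (∀ x ∈ X, ∃ n j : ℕ, x = Nat.pair n j ∧ ((j = 1 ∧ n ∈ A) ∨ (j = 0 ∧ n ∉ A))) ∧
    Tendsto (fun m : ℕ =>
      ((({n : ℕ | ∃ j : ℕ, Nat.pair n j ∈ X} ∩ Set.Iio m).ncard : ℝ) / (m : ℝ)))
      atTop (nhds 1)

/-- generic computability -/
def GC (A : Set ℕ) : Prop :=
  ∃ φ : ℕ →. Bool, Partrec φ ∧
    (∀ n : ℕ, ∀ b ∈ φ n, (b = true ↔ n ∈ A)) ∧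
    Tendsto (fun m : ℕ => ((({n : ℕ | (φ n).Dom} ∩ Set.Iio m).ncard : ℝ) / (m : ℝ)))
      atTop (nhds 1)

/-- graph of the characteristic function -/
def Gr (A : Set ℕ) : Set ℕ :=
  {x | ∃ n j : ℕ, x = Nat.pair n j ∧ ((j = 1 ∧ n ∈ A) ∨ (j = 0 ∧ n ∉ A))}

lemma IsDesc.sub {A X : Set ℕ} (h : IsDesc A X) : X ⊆ Gr A := fun x hx => h.1 x hx

lemma IsDesc.dom {A X : Set ℕ} (h : IsDesc A X) : D1 {n : ℕ | ∃ j : ℕ, Nat.pair n j ∈ X} := h.2

lemma IsDesc.nonempty {A X : Set ℕ} (h : IsDesc A X) : X.Nonempty := by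
  obtain ⟨n, j, hj⟩ := h.dom.nonempty
  exact ⟨_, hj⟩

lemma Gr_desc (A : Set ℕ) : IsDesc A (Gr A) := by
  refine ⟨fun x hx => hx, ?_⟩
  have h : {n : ℕ | ∃ j : ℕ, Nat.pair n j ∈ Gr A} = Set.univ := by
    ext n
    simp only [Set.mem_ofPred_eq, Set.mem_univ, iff_true]
    by_cases hn : n ∈ A
    · exact ⟨1, n, 1, rfl, Or.inl ⟨rfl, hn⟩⟩
    · exact ⟨0, n, 0, rfl, Or.inr ⟨rfl, hn⟩⟩
  have h2 : D1 Set.univ := by
    rw [D1_iff]
    intro ε hε
    refine ⟨0, fun m _ => ?_⟩
    simp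
    positivity
  show D1 _
  rw [h]; exact h2

lemma REPred.comp' {α β : Type} [Primcodable α] [Primcodable β] {p : β → Prop} {f : α → β}
    (hp : REPred p) (hf : Computable f) : REPred fun a => p (f a) :=
  Partrec.comp hp hf

lemma REPred.and_bool {α : Type} [Primcodable α] {p : α → Prop} {c : α → Bool}
    (hp : REPred p) (hc : Computable c) : REPred fun a => c a = true ∧ p a := by
  have h : Partrec fun a => cond (c a) (Part.assert (p a) fun _ => Part.some ()) Part.none :=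
    Partrec.cond hc hp Partrec.none
  refine h.of_eq fun a => Part.ext fun x => ?_
  cases hca : c a <;> simp [Part.mem_assert_iff] <;> simp_all

lemma REPred.ex {α : Type} [Primcodable α] {c : α → ℕ → Bool}
    (hc : Computable₂ c) : REPred fun a => ∃ v, c a v = true := by
  have h : Partrec fun a => Nat.rfind fun v => Part.some (c a v) :=
    Partrec.rfind hc.partrec₂
  refine h.dom_re.of_eq fun a => ?_
  refine (Nat.rfind_dom (p := fun v => (Part.some (c a v) : Part Bool))).trans ?_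
  simp

/-- The conclusion of the theorem for the set `A`. -/
def Concl (A : Set ℕ) : Prop :=
  ∃ B : Set ℕ,
    (∃ W : ℕ × List ℕ → Prop, REPred W ∧
      ∀ X : Set ℕ, IsDesc A X →
        IsDesc B {y : ℕ | ∃ l : List ℕ, (∀ z ∈ l, z ∈ X) ∧ W (y, l)}) ∧
    ¬ GC B ∧ D1 B

/-- Reduction to an enumeration operator using one bit of information at a time. -/
lemma reduce (A : Set ℕ) (R : ℕ → ℕ → Prop) (hR : REPred fun q : ℕ × ℕ => R q.1 q.2)
    (h1 : ∀ X, IsDesc A X → D1 {p | ∃ z ∈ X, R p z})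
    (h2 : ∀ e, (∀ p, W e p → ∃ z ∈ Gr A, R p z) → ¬ D1 {p | W e p}) : Concl A := by
  refine ⟨{p | ∃ z ∈ Gr A, R p z}, ⟨fun q => (decide (q.1.unpair.2 = 1) && !q.2.isEmpty) = true ∧
    R q.1.unpair.1 q.2.headI, ?_, ?_⟩, ?_, ?_⟩
  · apply REPred.and_bool
    · refine REPred.comp' (f := fun q : ℕ × List ℕ => (q.1.unpair.1, q.2.headI)) hR ?_
      apply Primrec.to_comp
      exact Primrec.pair (Primrec.fst.comp (Primrec.unpair.comp Primrec.fst))
        (Primrec.list_headI.comp Primrec.snd)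
    · apply Primrec.to_comp
      apply Primrec.and.comp
      · exact (Primrec.eq.comp (Primrec.snd.comp (Primrec.unpair.comp Primrec.fst))
          (Primrec.const 1)).decide
      · have h : Primrec fun q : ℕ × List ℕ => !(q.2.isEmpty) := by
          apply Primrec.not.comp
          have : Primrec fun l : List ℕ => l.isEmpty := by
            have h3 : Primrec fun l : List ℕ => decide (l.length = 0) :=
              (Primrec.eq.comp Primrec.list_length (Primrec.const 0)).decide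
            refine h3.of_eq fun l => ?_
            cases l <;> simp
          exact this.comp Primrec.snd
        exact h
  · intro X hX
    refine ⟨?_, ?_⟩
    · rintro x ⟨l, hl, hx1, hx2⟩
      simp only [Bool.and_eq_true, decide_eq_true_eq, Bool.not_eq_true'] at hx1
      refine ⟨x.unpair.1, 1, ?_, Or.inl ⟨rfl, ?_⟩⟩
      · conv_lhs => rw [← Nat.pair_unpair x]
        rw [hx1.1]
      · cases l with
        | nil => simp at hx1
        | cons z l => exact ⟨z, hX.sub (hl z (by simp)), hx2⟩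
    · have h3 := h1 X hX
      refine D1.mono h3 ?_
      rintro p ⟨z, hz, hp⟩
      refine ⟨1, [z], by simpa using hz, ?_, ?_⟩
      · simp
      · simpa using hp
  · rintro ⟨φ, hφ, hφ1, hφ2⟩
    have hre : REPred fun p => ∃ v, v ∈ φ p ∧ v = true := by
      have h3 : Partrec fun p => (φ p).bind fun v => cond v (Part.some ()) Part.none := by
        apply Partrec.bind hφ
        show Partrec fun q : ℕ × Bool => cond q.2 (Part.some ()) Part.none
        exact Partrec.cond (Computable.snd) (Computable.const ()).partrec Partrec.none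
      refine h3.dom_re.of_eq fun p => ?_
      simp only [Part.bind_dom]
      constructor
      · rintro ⟨h, h'⟩
        refine ⟨(φ p).get h, Part.get_mem h, ?_⟩
        cases hv : (φ p).get h
        · rw [hv] at h'; simp at h'
        · rfl
      · rintro ⟨v, hv, rfl⟩
        obtain ⟨h, hv⟩ := hv
        exact ⟨h, by rw [hv]; simp⟩
    obtain ⟨e, he⟩ := exists_W hre
    refine h2 e ?_ ?_
    · intro p hp
      obtain ⟨v, hv, rfl⟩ := (he p).2 hp
      exact (hφ1 p true hv).1 rfl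
    · have hB : D1 {p | ∃ z ∈ Gr A, R p z} := h1 _ (Gr_desc A)
      refine D1.mono (hB.inter (show D1 {n | (φ n).Dom} from hφ2)) ?_
      rintro p ⟨hp1, hp2⟩
      rw [Set.mem_ofPred_eq, ← he]
      refine ⟨(φ p).get hp2, Part.get_mem _, ?_⟩
      exact (hφ1 p _ (Part.get_mem _)).2 hp1
  · exact h1 _ (Gr_desc A)

end Pool.Agent.UGen
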