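import Pool.Agent.UGen.CE

set_option autoImplicit false
open Filter
open Nat.Partrec (Code)

namespace Pool.Agent.UGen

/-- the block of type `e` born at stage `s` is met by the `e`-th c.e. set by stage `t` -/
def hit (e s t : ℕ) : Bool := decide (∃ p < t, Pn (Nat.pair e s) p ∧ Ws e t p = true)

/-- one step of the leftmost path construction; strings are stored in reverse, together with
the stage at which they were born; the bottom entry is a sentinel -/
def step (e t : ℕ) (st : List (Bool × ℕ)) : List (Bool × ℕ) :=
  if st.dropWhile (fun x => !hit e x.2 t) = [] then (false, t + 1) :: st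
  else (true, t + 1) :: ((st.dropWhile (fun x => !hit e x.2 t)).dropWhile (fun x => x.1)).tail

def St (e : ℕ) : ℕ → List (Bool × ℕ)
  | 0 => [(false, 0)]
  | t + 1 => step e t (St e t)

/-- bit number `j` (from the bottom) -/
def bit (σ : List (Bool × ℕ)) (j : ℕ) : Option Bool := (σ.reverse[j]?).map Prod.fst

/-- the information coded by `z` contradicts `σ` -/
def conf (σ : List (Bool × ℕ)) (z : ℕ) : Bool :=
  decide (bit σ 0 = some true) || decide (bit σ (z.unpair.1 + 1) = some (!decide (z.unpair.2 = 1)))

def RS (p z : ℕ) : Prop := ∀ n < p, Pn n p → conf (St n.unpair.1 n.unpair.2) z = true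

/-! ### primitive recursiveness -/

lemma exists_lt' {β : Type} [Primcodable β] {R : ℕ → β → Prop} (hf : PrimrecRel R) :
    PrimrecRel fun (n : ℕ) (y : β) => ∃ x < n, R x y :=
  (hf.exists_mem_list.comp (Primrec.list_range.comp Primrec.fst) Primrec.snd).of_eq (by simp)

lemma forall_lt' {β : Type} [Primcodable β] {R : ℕ → β → Prop} (hf : PrimrecRel R) :
    PrimrecRel fun (n : ℕ) (y : β) => ∀ x < n, R x y :=
  (hf.forall_mem_list.comp (Primrec.list_range.comp Primrec.fst) Primrec.snd).of_eq (by simp)

lemma primrec_pow : Primrec₂ fun a b : ℕ => a ^ b := Primrec₂.unpaired'.1 Nat.Primrec.pow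

lemma primrec_Pn : PrimrecRel Pn := by
  have h1 : PrimrecRel fun n p : ℕ => 2 ^ n ≤ p :=
    Primrec.nat_le.comp₂ (primrec_pow.comp₂ (Primrec₂.const 2) Primrec₂.left) Primrec₂.right
  have h2 : PrimrecRel fun n p : ℕ => p < 2 ^ n + 2 ^ (n - n.unpair.1) := by
    apply Primrec.nat_lt.comp₂ Primrec₂.right
    apply Primrec.nat_add.comp₂ (primrec_pow.comp₂ (Primrec₂.const 2) Primrec₂.left)
    apply primrec_pow.comp₂ (Primrec₂.const 2)
    apply Primrec.nat_sub.comp₂ Primrec₂.left
    exact ((Primrec.fst.comp Primrec.unpair).comp Primrec.fst).to₂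
  exact PrimrecPred.and h1 h2

lemma primrec_hit : Primrec fun q : ℕ × ℕ × ℕ => hit q.1 q.2.1 q.2.2 := by
  have hR : PrimrecRel fun (p : ℕ) (q : ℕ × ℕ × ℕ) =>
      Pn (Nat.pair q.1 q.2.1) p ∧ Ws q.1 q.2.2 p = true := by
    apply PrimrecPred.and
    · apply PrimrecRel.comp primrec_Pn
      · exact Primrec₂.natPair.comp (Primrec.fst.comp Primrec.snd)
          (Primrec.fst.comp (Primrec.snd.comp Primrec.snd))
      · exact Primrec.fst
    · apply PrimrecRel.comp Primrec.eq
      · exact primrec_Ws.comp (Primrec.pair (Primrec.fst.comp Primrec.snd)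
          (Primrec.pair (Primrec.snd.comp (Primrec.snd.comp Primrec.snd)) Primrec.fst))
      · exact Primrec.const true
  have h := exists_lt' hR
  have h2 : PrimrecPred fun q : ℕ × ℕ × ℕ => ∃ p < q.2.2, Pn (Nat.pair q.1 q.2.1) p ∧
      Ws q.1 q.2.2 p = true := h.comp (Primrec.snd.comp Primrec.snd) Primrec.id
  exact h2.decide

lemma primrec_dropWhile {α β : Type} [Primcodable α] [Primcodable β] {f : α → List β}
    {p : α → β → Bool} (hf : Primrec f) (hp : Primrec₂ p) :
    Primrec fun a => (f a).dropWhile (p a) := by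
  have h : Primrec fun a => (List.recOn (f a) [] fun b l IH =>
      bif p a b then IH else b :: l : List β) := by
    apply Primrec.list_rec hf (Primrec.const []) (h := fun a q => bif p a q.1 then q.2.2 else q.1 :: q.2.1)
    have : Primrec fun q : α × (β × List β × List β) =>
        bif p q.1 q.2.1 then q.2.2.2 else q.2.1 :: q.2.2.1 := by
      apply Primrec.cond
      · exact hp.comp Primrec.fst (Primrec.fst.comp Primrec.snd)
      · exact Primrec.snd.comp (Primrec.snd.comp Primrec.snd)
      · exact Primrec.list_cons.comp (Primrec.fst.comp Primrec.snd)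
          (Primrec.fst.comp (Primrec.snd.comp Primrec.snd))
    exact this
  refine h.of_eq fun a => ?_
  induction f a with
  | nil => rfl
  | cons b l ih =>
    simp only [List.dropWhile_cons]
    cases hb : p a b
    · simp
    · simp only [cond_true, if_true]; exact ih

lemma primrec_step : Primrec fun q : (ℕ × ℕ) × List (Bool × ℕ) => step q.1.1 q.1.2 q.2 := by
  have hd : Primrec fun q : (ℕ × ℕ) × List (Bool × ℕ) =>
      q.2.dropWhile (fun x => !hit q.1.1 x.2 q.1.2) := by
    apply primrec_dropWhile Primrec.snd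
      (p := fun (q : (ℕ × ℕ) × List (Bool × ℕ)) (x : Bool × ℕ) => !hit q.1.1 x.2 q.1.2)
    have : Primrec fun r : ((ℕ × ℕ) × List (Bool × ℕ)) × (Bool × ℕ) =>
        !hit r.1.1.1 r.2.2 r.1.1.2 := by
      apply Primrec.not.comp
      apply primrec_hit.comp
        (g := fun r : ((ℕ × ℕ) × List (Bool × ℕ)) × (Bool × ℕ) => (r.1.1.1, r.2.2, r.1.1.2))
      exact Primrec.pair (Primrec.fst.comp (Primrec.fst.comp Primrec.fst))
        (Primrec.pair (Primrec.snd.comp Primrec.snd)
          (Primrec.snd.comp (Primrec.fst.comp Primrec.fst)))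
    exact this
  unfold step
  apply Primrec.ite
  · exact Primrec.eq.comp hd (Primrec.const [])
  · apply Primrec.list_cons.comp _ Primrec.snd
    exact Primrec.pair (Primrec.const false) (Primrec.succ.comp (Primrec.snd.comp Primrec.fst))
  · apply Primrec.list_cons.comp
    · exact Primrec.pair (Primrec.const true) (Primrec.succ.comp (Primrec.snd.comp Primrec.fst))
    · exact Primrec.list_tail.comp ((Primrec.list_dropWhile (p := fun x : Bool × ℕ => x.1)
        Primrec.fst).comp hd)

lemma primrec_St : Primrec₂ St := by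
  have h : Primrec fun q : ℕ × ℕ => (Nat.rec [(false, 0)] (fun t IH => step q.1 t IH) q.2 :
      List (Bool × ℕ)) := by
    apply Primrec.nat_rec' Primrec.snd (Primrec.const [(false, 0)])
      (h := fun (q : ℕ × ℕ) (r : ℕ × List (Bool × ℕ)) => step q.1 r.1 r.2)
    have : Primrec fun s : (ℕ × ℕ) × (ℕ × List (Bool × ℕ)) => step s.1.1 s.2.1 s.2.2 := by
      apply primrec_step.comp
        (g := fun s : (ℕ × ℕ) × (ℕ × List (Bool × ℕ)) => ((s.1.1, s.2.1), s.2.2))
      exact Primrec.pair (Primrec.pair (Primrec.fst.comp Primrec.fst)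
        (Primrec.fst.comp Primrec.snd)) (Primrec.snd.comp Primrec.snd)
    exact this
  refine h.of_eq fun q => ?_
  obtain ⟨e, t⟩ := q
  simp only
  induction t with
  | zero => rfl
  | succ t ih => simp only [St]; rw [← ih]

lemma primrec_bit : Primrec₂ bit := by
  unfold bit
  apply Primrec.option_map
  · exact Primrec.list_getElem?.comp (Primrec.list_reverse.comp Primrec.fst) Primrec.snd
  · exact (Primrec.fst.comp Primrec.snd).to₂

lemma primrec_conf : Primrec₂ conf := by
  unfold conf
  apply Primrec.or.comp
  · exact (Primrec.eq.comp (primrec_bit.comp Primrec.fst (Primrec.const 0))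
      (Primrec.const (some true))).decide
  · refine (Primrec.eq.comp (primrec_bit.comp Primrec.fst (Primrec.succ.comp
      (Primrec.fst.comp (Primrec.unpair.comp Primrec.snd)))) ?_).decide
    apply Primrec.option_some.comp
    apply Primrec.not.comp
    exact (Primrec.eq.comp (Primrec.snd.comp (Primrec.unpair.comp Primrec.snd))
      (Primrec.const 1)).decide

lemma primrec_RS : PrimrecPred fun q : ℕ × ℕ => RS q.1 q.2 := by
  have hR : PrimrecRel fun (n : ℕ) (q : ℕ × ℕ) =>
      ¬ Pn n q.1 ∨ conf (St n.unpair.1 n.unpair.2) q.2 = true := by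
    apply PrimrecPred.or
    · apply PrimrecPred.not
      exact primrec_Pn.comp Primrec.fst (Primrec.fst.comp Primrec.snd)
    · apply Primrec.eq.comp _ (Primrec.const true)
      apply primrec_conf.comp
      · exact primrec_St.comp (Primrec.fst.comp (Primrec.unpair.comp Primrec.fst))
          (Primrec.snd.comp (Primrec.unpair.comp Primrec.fst))
      · exact Primrec.snd.comp Primrec.snd
  have h := forall_lt' hR
  have h2 := h.comp (f := fun q : ℕ × ℕ => q.1) (g := fun q => q) Primrec.fst Primrec.id
  refine h2.of_eq fun q => ?_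
  unfold RS
  constructor
  · intro h3 n hn hp
    rcases h3 n hn with h4 | h4
    · exact absurd hp h4
    · exact h4
  · intro h3 n hn
    by_cases hp : Pn n q.1
    · exact Or.inr (h3 n hn hp)
    · exact Or.inl hp

end Pool.Agent.UGen
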