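import Pool.Agent.UGen.CE
import Pool.Agent.UGen.Stack

set_option autoImplicit false
open Filter

namespace Pool.Agent.UGen

/-! ### counting -/

lemma count_le (x M : ℕ) (B : Finset ℕ) :
    ((Finset.range M).filter (fun r => r % x ∈ B)).card ≤ (M / x + 1) * B.card := by
  have h : ((Finset.range M).filter (fun r => r % x ∈ B)).card ≤
      (B ×ˢ Finset.range (M / x + 1)).card := by
    apply Finset.card_le_card_of_injOn (fun r => (r % x, r / x))
    · intro r hr
      simp only [Finset.coe_filter, Finset.mem_range, Set.mem_ofPred_eq] at hr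
      simp only [Finset.coe_product, Set.mem_prod, Finset.mem_coe, Finset.mem_range]
      exact ⟨hr.2, Nat.lt_succ_of_le (Nat.div_le_div_right hr.1.le)⟩
    · intro r _ r' _ h
      simp only [Prod.mk.injEq] at h
      rw [← Nat.mod_add_div r x, ← Nat.mod_add_div r' x, h.1, h.2]
  rw [Finset.card_product, Finset.card_range] at h
  rw [mul_comm]; exact h

lemma count_ge (x M : ℕ) (B : Finset ℕ) (hB : ∀ j ∈ B, j < x) :
    (M / x) * B.card ≤ ((Finset.range M).filter (fun r => r % x ∈ B)).card := by
  have h : (B ×ˢ Finset.range (M / x)).card ≤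
      ((Finset.range M).filter (fun r => r % x ∈ B)).card := by
    apply Finset.card_le_card_of_injOn (fun q => q.1 + x * q.2)
    · rintro ⟨j, k⟩ hq
      simp only [Finset.coe_product, Set.mem_prod, Finset.mem_coe, Finset.mem_range] at hq
      simp only [Finset.coe_filter, Finset.mem_range, Set.mem_ofPred_eq]
      have hj := hB j hq.1
      refine ⟨?_, ?_⟩
      · have h1 : k + 1 ≤ M / x := hq.2
        have h2 : x * (k + 1) ≤ x * (M / x) := Nat.mul_le_mul_left _ h1
        have h3 : x * (M / x) ≤ M := Nat.mul_div_le M x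
        rw [Nat.mul_add] at h2
        omega
      · rw [Nat.add_mul_mod_self_left, Nat.mod_eq_of_lt hj]; exact hq.1
    · rintro ⟨j, k⟩ hq ⟨j', k'⟩ hq' h
      simp only [Finset.coe_product, Set.mem_prod, Finset.mem_coe, Finset.mem_range] at hq hq'
      simp only at h
      have hj := hB j hq.1
      have hj' := hB j' hq'.1
      have h1 : (j + x * k) % x = (j' + x * k') % x := by rw [h]
      rw [Nat.add_mul_mod_self_left, Nat.add_mul_mod_self_left, Nat.mod_eq_of_lt hj,
        Nat.mod_eq_of_lt hj'] at h1
      subst h1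
      have h2 : x * k = x * k' := by omega
      have hx : 0 < x := by omega
      have h3 := Nat.eq_of_mul_eq_mul_left hx h2
      rw [h3]
  rw [Finset.card_product, Finset.card_range] at h
  rw [mul_comm]; exact h

/-- elements of the active part whose label lies in `B` -/
lemma Pn_label_card (n x : ℕ) (B : Finset ℕ) :
    {p | Pn n p ∧ (p - 2 ^ n) % x ∈ B}.ncard =
      ((Finset.range (2 ^ (n - n.unpair.1))).filter (fun r => r % x ∈ B)).card := by
  have h : {p | Pn n p ∧ (p - 2 ^ n) % x ∈ B} =
      (fun r => 2 ^ n + r) '' (((Finset.range (2 ^ (n - n.unpair.1))).filter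
        (fun r => r % x ∈ B) : Finset ℕ) : Set ℕ) := by
    ext p
    simp only [Set.mem_ofPred_eq, Set.mem_image, Finset.coe_filter, Finset.mem_range]
    constructor
    · rintro ⟨⟨h1, h2⟩, h3⟩
      exact ⟨p - 2 ^ n, ⟨by omega, h3⟩, by omega⟩
    · rintro ⟨r, ⟨h1, h2⟩, rfl⟩
      refine ⟨⟨by omega, by omega⟩, ?_⟩
      simpa using h2
  rw [h, Set.ncard_image_of_injective _ (fun a b h => by simpa using h), Set.ncard_coe_finset]

/-! ### bounded quantifiers for computable functions -/

def bAll (f : ℕ → Bool) : ℕ → Bool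
  | 0 => true
  | k + 1 => bAll f k && f k

lemma bAll_iff (f : ℕ → Bool) (k : ℕ) : bAll f k = true ↔ ∀ i < k, f i = true := by
  induction k with
  | zero => simp [bAll]
  | succ k ih =>
    simp only [bAll, Bool.and_eq_true, ih]
    constructor
    · rintro ⟨h1, h2⟩ i hi
      rcases Nat.lt_succ_iff_lt_or_eq.1 hi with h | h
      · exact h1 i h
      · rw [h]; exact h2
    · intro h
      exact ⟨fun i hi => h i (by omega), h k (by omega)⟩

lemma comp_bAll {α : Type} [Primcodable α] {f : α → ℕ → Bool} {n : α → ℕ}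
    (hf : Computable₂ f) (hn : Computable n) : Computable fun x => bAll (f x) (n x) := by
  have h : Computable fun x => (Nat.rec true (fun y IH => (IH && f x y)) (n x) : Bool) := by
    apply Computable.nat_rec hn (Computable.const true) (h := fun x (q : ℕ × Bool) => (q.2 && f x q.1))
    have : Computable fun s : α × (ℕ × Bool) => (s.2.2 && f s.1 s.2.1) := by
      apply Primrec.and.to_comp.comp
      · exact Computable.snd.comp Computable.snd
      · exact hf.comp Computable.fst (Computable.fst.comp Computable.snd)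
    exact this
  refine h.of_eq fun x => ?_
  induction n x with
  | zero => rfl
  | succ k ih => simp only [bAll]; rw [← ih]

/-- size parameter of a block -/
def xN (n : ℕ) : ℕ := n.unpair.2.unpair.1
/-- birth stage of a block -/
def sN (n : ℕ) : ℕ := n.unpair.2.unpair.2
/-- label of an element of a block -/
def lab (n p : ℕ) : ℕ := (p - 2 ^ n) % xN n

def act (a : ℕ → ℕ → Bool) (x s : ℕ) : Bool :=
  decide (s = 0) || !(bAll (fun i => a s i == a (s - 1) i) x)

def good (n j q : ℕ) : Bool :=
  (decide (Pn n q.unpair.1) && decide (lab n q.unpair.1 = j)) &&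
    Ws n.unpair.1 q.unpair.2 q.unpair.1

def fstq (n j q : ℕ) : Bool := good n j q && bAll (fun q' => !good n j q') q

def des (n j v p : ℕ) : Bool := !bAll (fun q => !(fstq n j q && decide (q.unpair.1 = p))) v

def RdB (a : ℕ → ℕ → Bool) (p z v : ℕ) : Bool :=
  bAll (fun n => !(decide (Pn n p) && (decide (0 < xN n) && act a (xN n) (sN n))) ||
    ((decide (z.unpair.1 = lab n p) && decide (sN n ≤ v)) &&
      ((a v z.unpair.1 == decide (z.unpair.2 = 1)) && !(des n (lab n p) v p)))) p

lemma RdB_iff (a : ℕ → ℕ → Bool) (p z v : ℕ) : RdB a p z v = true ↔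
    ∀ n, Pn n p → 0 < xN n → act a (xN n) (sN n) = true →
      z.unpair.1 = lab n p ∧ sN n ≤ v ∧ a v z.unpair.1 = decide (z.unpair.2 = 1) ∧
        des n (lab n p) v p = false := by
  unfold RdB
  rw [bAll_iff]
  constructor
  · intro h n h1 h2 h3
    have h4 := h n (Pn_lt h1)
    simp only [h1, h2, h3, decide_true, Bool.and_self, Bool.not_true, Bool.false_or,
      Bool.and_eq_true, decide_eq_true_eq, beq_iff_eq, Bool.not_eq_true'] at h4
    exact ⟨h4.1.1, h4.1.2, h4.2.1, h4.2.2⟩
  · intro h n _
    by_cases h1 : Pn n p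
    · by_cases h2 : 0 < xN n
      · cases h3 : act a (xN n) (sN n)
        · simp
        · obtain ⟨h4, h5, h6, h7⟩ := h n h1 h2 h3
          simp [h1, h2, h4, h5, h7]
          rw [← h4, h6]
      · simp [h2]
    · simp [h1]

/-! ### computability -/

lemma comp_xN : Computable xN :=
  (Primrec.fst.comp (Primrec.unpair.comp (Primrec.snd.comp Primrec.unpair))).to_comp

lemma comp_sN : Computable sN :=
  (Primrec.snd.comp (Primrec.unpair.comp (Primrec.snd.comp Primrec.unpair))).to_comp

lemma primrec_lab : Primrec₂ lab := by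
  unfold lab
  apply Primrec.nat_mod.comp
  · apply Primrec.nat_sub.comp Primrec.snd
    exact primrec_pow.comp (Primrec.const 2) Primrec.fst
  · exact Primrec.fst.comp (Primrec.unpair.comp (Primrec.snd.comp (Primrec.unpair.comp Primrec.fst)))

lemma primrec_good : Primrec fun q : ℕ × ℕ × ℕ => good q.1 q.2.1 q.2.2 := by
  unfold good
  have h1 : Primrec fun q : ℕ × ℕ × ℕ => q.2.2.unpair.1 :=
    Primrec.fst.comp (Primrec.unpair.comp (Primrec.snd.comp Primrec.snd))
  have h2 : Primrec fun q : ℕ × ℕ × ℕ => q.2.2.unpair.2 :=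
    Primrec.snd.comp (Primrec.unpair.comp (Primrec.snd.comp Primrec.snd))
  apply Primrec.and.comp
  · apply Primrec.and.comp
    · exact (primrec_Pn.comp Primrec.fst h1).decide
    · exact (Primrec.eq.comp (primrec_lab.comp Primrec.fst h1)
        (Primrec.fst.comp Primrec.snd)).decide
  · apply primrec_Ws.comp (g := fun q : ℕ × ℕ × ℕ => (q.1.unpair.1, q.2.2.unpair.2, q.2.2.unpair.1))
    exact Primrec.pair (Primrec.fst.comp (Primrec.unpair.comp Primrec.fst)) (Primrec.pair h2 h1)

lemma comp_fstq : Computable fun q : ℕ × ℕ × ℕ => fstq q.1 q.2.1 q.2.2 := by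
  unfold fstq
  apply Primrec.and.to_comp.comp primrec_good.to_comp
  apply comp_bAll _ (Computable.snd.comp Computable.snd)
  have : Computable fun s : (ℕ × ℕ × ℕ) × ℕ => !good s.1.1 s.1.2.1 s.2 := by
    apply Primrec.to_comp
    apply Primrec.not.comp
    apply primrec_good.comp (g := fun s : (ℕ × ℕ × ℕ) × ℕ => (s.1.1, s.1.2.1, s.2))
    exact Primrec.pair (Primrec.fst.comp Primrec.fst)
      (Primrec.pair (Primrec.fst.comp (Primrec.snd.comp Primrec.fst)) Primrec.snd)
  exact this

lemma comp_des : Computable fun q : (ℕ × ℕ) × (ℕ × ℕ) => des q.1.1 q.1.2 q.2.1 q.2.2 := by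
  unfold des
  apply Primrec.not.to_comp.comp
  apply comp_bAll _ (Computable.fst.comp Computable.snd)
  have : Computable fun s : ((ℕ × ℕ) × (ℕ × ℕ)) × ℕ =>
      !(fstq s.1.1.1 s.1.1.2 s.2 && decide (s.2.unpair.1 = s.1.2.2)) := by
    apply Primrec.not.to_comp.comp
    apply Primrec.and.to_comp.comp
    · apply comp_fstq.comp (g := fun s : ((ℕ × ℕ) × (ℕ × ℕ)) × ℕ => (s.1.1.1, s.1.1.2, s.2))
      exact (Computable.fst.comp (Computable.fst.comp Computable.fst)).pair
        ((Computable.snd.comp (Computable.fst.comp Computable.fst)).pair Computable.snd)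
    · apply Primrec.to_comp
      exact (Primrec.eq.comp (Primrec.fst.comp (Primrec.unpair.comp Primrec.snd))
        (Primrec.snd.comp (Primrec.snd.comp Primrec.fst))).decide
  exact this

lemma comp_act {a : ℕ → ℕ → Bool} (ha : Computable₂ a) :
    Computable fun q : ℕ × ℕ => act a q.1 q.2 := by
  unfold act
  apply Primrec.or.to_comp.comp
  · exact ((Primrec.eq.comp Primrec.snd (Primrec.const 0)).decide).to_comp
  · apply Primrec.not.to_comp.comp
    apply comp_bAll _ Computable.fst
    have : Computable fun s : (ℕ × ℕ) × ℕ => (a s.1.2 s.2 == a (s.1.2 - 1) s.2) := by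
      apply Primrec.beq.to_comp.comp
      · exact ha.comp (Computable.snd.comp Computable.fst) Computable.snd
      · apply ha.comp _ Computable.snd
        exact (Primrec.pred.comp (Primrec.snd.comp Primrec.fst)).to_comp
    exact this

section helpers
variable {α : Type} [Primcodable α]

lemma c_and {f g : α → Bool} (hf : Computable f) (hg : Computable g) :
    Computable fun x => (f x && g x) := Primrec.and.to_comp.comp hf hg
lemma c_or {f g : α → Bool} (hf : Computable f) (hg : Computable g) :
    Computable fun x => (f x || g x) := Primrec.or.to_comp.comp hf hg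
lemma c_not {f : α → Bool} (hf : Computable f) :
    Computable fun x => !(f x) := Primrec.not.to_comp.comp hf
lemma c_beq {f g : α → Bool} (hf : Computable f) (hg : Computable g) :
    Computable fun x => (f x == g x) := Primrec.beq.to_comp.comp hf hg
lemma c_deq {f g : α → ℕ} (hf : Computable f) (hg : Computable g) :
    Computable fun x => decide (f x = g x) := by
  have h : Primrec fun m : ℕ × ℕ => decide (m.1 = m.2) :=
    (Primrec.eq.comp Primrec.fst Primrec.snd).decide
  exact h.to_comp.comp (hf.pair hg)
lemma c_dle {f g : α → ℕ} (hf : Computable f) (hg : Computable g) :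
    Computable fun x => decide (f x ≤ g x) := by
  have h : Primrec fun m : ℕ × ℕ => decide (m.1 ≤ m.2) :=
    (Primrec.nat_le.comp Primrec.fst Primrec.snd).decide
  exact h.to_comp.comp (hf.pair hg)
lemma c_dlt {f g : α → ℕ} (hf : Computable f) (hg : Computable g) :
    Computable fun x => decide (f x < g x) := by
  have h : Primrec fun m : ℕ × ℕ => decide (m.1 < m.2) :=
    (Primrec.nat_lt.comp Primrec.fst Primrec.snd).decide
  exact h.to_comp.comp (hf.pair hg)
lemma c_Pn {f g : α → ℕ} (hf : Computable f) (hg : Computable g) :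
    Computable fun x => decide (Pn (f x) (g x)) := primrec_Pn.decide.to_comp.comp hf hg
lemma c_lab {f g : α → ℕ} (hf : Computable f) (hg : Computable g) :
    Computable fun x => lab (f x) (g x) := primrec_lab.to_comp.comp hf hg
lemma c_up1 {f : α → ℕ} (hf : Computable f) :
    Computable fun x => (f x).unpair.1 := (Computable.fst.comp Primrec.unpair.to_comp).comp hf
lemma c_up2 {f : α → ℕ} (hf : Computable f) :
    Computable fun x => (f x).unpair.2 := (Computable.snd.comp Primrec.unpair.to_comp).comp hf
lemma c_act {a : ℕ → ℕ → Bool} (ha : Computable₂ a) {f g : α → ℕ} (hf : Computable f)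
    (hg : Computable g) : Computable fun x => act a (f x) (g x) :=
  (comp_act ha).comp (hf.pair hg)
lemma c_des {f1 f2 f3 f4 : α → ℕ} (h1 : Computable f1)
    (h2 : Computable f2) (h3 : Computable f3) (h4 : Computable f4) :
    Computable fun x => des (f1 x) (f2 x) (f3 x) (f4 x) := by
  have h5 : Computable fun x => ((f1 x, f2 x), (f3 x, f4 x)) := (h1.pair h2).pair (h3.pair h4)
  exact Computable.comp (f := fun q : (ℕ × ℕ) × (ℕ × ℕ) => des q.1.1 q.1.2 q.2.1 q.2.2)
    (g := fun x => ((f1 x, f2 x), (f3 x, f4 x))) comp_des h5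
lemma c_a {a : ℕ → ℕ → Bool} (ha : Computable₂ a) {f g : α → ℕ} (hf : Computable f)
    (hg : Computable g) : Computable fun x => a (f x) (g x) :=
  ha.comp hf hg

end helpers

lemma comp_RdB {a : ℕ → ℕ → Bool} (ha : Computable₂ a) :
    Computable₂ fun (q : ℕ × ℕ) (v : ℕ) => RdB a q.1 q.2 v := by
  have : Computable fun s : (ℕ × ℕ) × ℕ => RdB a s.1.1 s.1.2 s.2 := by
    unfold RdB
    apply comp_bAll _ (Computable.fst.comp Computable.fst)
    have hn : Computable fun r : ((ℕ × ℕ) × ℕ) × ℕ => r.2 := Computable.snd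
    have hp : Computable fun r : ((ℕ × ℕ) × ℕ) × ℕ => r.1.1.1 :=
      Computable.fst.comp (Computable.fst.comp Computable.fst)
    have hz : Computable fun r : ((ℕ × ℕ) × ℕ) × ℕ => r.1.1.2 :=
      Computable.snd.comp (Computable.fst.comp Computable.fst)
    have hv : Computable fun r : ((ℕ × ℕ) × ℕ) × ℕ => r.1.2 :=
      Computable.snd.comp Computable.fst
    have c1 := c_Pn hn hp
    have c2 := c_dlt (Computable.const 0) (comp_xN.comp hn)
    have c3 := c_act ha (comp_xN.comp hn) (comp_sN.comp hn)
    have c4 := c_deq (c_up1 hz) (c_lab hn hp)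
    have c5 := c_dle (comp_sN.comp hn) hv
    have c6 := c_beq (c_a ha hv (c_up1 hz)) (c_deq (c_up2 hz) (Computable.const 1))
    have c7 := c_not (c_des hn (c_lab hn hp) hv hp)
    have c14 := c_or (c_not (c_and c1 (c_and c2 c3))) (c_and (c_and c4 c5) (c_and c6 c7))
    exact c14
  exact this

end Pool.Agent.UGen
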