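import Pool.Agent.UGen.Case1a

set_option autoImplicit false
open Filter

namespace Pool.Agent.UGen

lemma good_iff (n j q : ℕ) : good n j q = true ↔
    Pn n q.unpair.1 ∧ lab n q.unpair.1 = j ∧ Ws n.unpair.1 q.unpair.2 q.unpair.1 = true := by
  unfold good
  simp only [Bool.and_eq_true, decide_eq_true_eq]
  tauto

lemma fstq_unique {n j q q' : ℕ} (h : fstq n j q = true) (h' : fstq n j q' = true) : q = q' := by
  unfold fstq at h h'
  simp only [Bool.and_eq_true, bAll_iff, Bool.not_eq_true'] at h h'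
  by_contra hne
  rcases lt_or_gt_of_ne hne with h1 | h1
  · have := h'.2 q h1; rw [h.1] at this; simp at this
  · have := h.2 q' h1; rw [h'.1] at this; simp at this

lemma des_true {n j v p : ℕ} : des n j v p = true ↔ ∃ q < v, fstq n j q = true ∧ q.unpair.1 = p := by
  unfold des
  rw [Bool.not_eq_true', ← Bool.not_eq_true, bAll_iff]
  push Not
  constructor
  · rintro ⟨q, h1, h2⟩
    refine ⟨q, h1, ?_⟩
    simpa using h2
  · rintro ⟨q, h1, h2⟩
    exact ⟨q, h1, by simpa using h2⟩

lemma exists_stable {a : ℕ → ℕ → Bool} (hconv : ∀ i, ∃ t0, ∀ t ≥ t0, a t i = a t0 i) (x : ℕ) :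
    ∃ s, ∀ t ≥ s, ∀ i < x, a t i = a s i := by
  induction x with
  | zero => exact ⟨0, fun t _ i hi => absurd hi (by omega)⟩
  | succ x ih =>
    obtain ⟨s, hs⟩ := ih
    obtain ⟨t0, ht0⟩ := hconv x
    refine ⟨max s t0, fun t ht i hi => ?_⟩
    rcases Nat.lt_succ_iff_lt_or_eq.1 hi with h | h
    · rw [hs t (by omega) i h, hs (max s t0) (by omega) i h]
    · rw [h, ht0 t (by omega), ht0 (max s t0) (by omega)]

lemma exists_true_stage {a : ℕ → ℕ → Bool} (hconv : ∀ i, ∃ t0, ∀ t ≥ t0, a t i = a t0 i) (x : ℕ) :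
    ∃ s, act a x s = true ∧ ∀ t ≥ s, ∀ i < x, a t i = a s i := by
  classical
  have hex := exists_stable hconv x
  refine ⟨Nat.find hex, ?_, Nat.find_spec hex⟩
  set s := Nat.find hex with hs
  have hspec := Nat.find_spec hex
  rw [← hs] at hspec
  unfold act
  by_cases h0 : s = 0
  · simp [h0]
  · have hmin := Nat.find_min hex (m := s - 1) (by omega)
    simp only [h0, decide_false, Bool.false_or, Bool.not_eq_true']
    rw [← Bool.not_eq_true, bAll_iff]
    intro hall
    apply hmin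
    intro t ht i hi
    have h1 : a s i = a (s - 1) i := by simpa using hall i hi
    rcases Nat.lt_or_ge t s with h | h
    · have : t = s - 1 := by omega
      rw [this]
    · rw [hspec t h i hi, h1]

lemma act_false {a : ℕ → ℕ → Bool} (hconv : ∀ i, ∃ t0, ∀ t ≥ t0, a t i = a t0 i) (X : ℕ) :
    ∃ S, ∀ x < X, ∀ s ≥ S, act a x s = false := by
  obtain ⟨s0, hs0⟩ := exists_stable hconv X
  refine ⟨s0 + 1, fun x hx s hs => ?_⟩
  unfold act
  have h0 : s ≠ 0 := by omega
  simp only [h0, decide_false, Bool.false_or, Bool.not_eq_false']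
  rw [bAll_iff]
  intro i hi
  rw [beq_iff_eq, hs0 s (by omega) i (by omega), hs0 (s - 1) (by omega) i (by omega)]

lemma final_bound (ε U D B x P Q : ℝ) (hε : 0 < ε) (hx : 0 < x) (hB0 : 0 ≤ B)
    (h3 : U ≤ (D + 1) * B + x) (h2 : D ≤ P / x) (hB : B ≤ ε / 4 * x) (h4 : P ≤ Q)
    (h5 : x ≤ Q) (h6 : x ≤ ε / 2 * Q) : U ≤ ε * Q := by
  have h7 : (D + 1) * B ≤ (P / x + 1) * B := by
    apply mul_le_mul_of_nonneg_right _ hB0; linarith
  have hD : D + 1 ≤ Q / x + 1 := by
    have : P / x ≤ Q / x := by gcongr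
    linarith
  have h8 : (D + 1) * B ≤ (Q / x + 1) * B := mul_le_mul_of_nonneg_right hD hB0
  have hQ : 0 ≤ Q := by linarith
  have h9 : (Q / x + 1) * B ≤ (Q / x + 1) * (ε / 4 * x) :=
    mul_le_mul_of_nonneg_left hB (by positivity)
  have h10 : (Q / x + 1) * (ε / 4 * x) = ε / 4 * (Q + x) := by field_simp
  have h11 : ε / 4 * (Q + x) ≤ ε / 4 * (Q + Q) := by
    apply mul_le_mul_of_nonneg_left _ (by positivity); linarith
  linarith

lemma case1_dense (A : Set ℕ) (a : ℕ → ℕ → Bool)
    (hconv : ∀ i, ∃ t0, ∀ t ≥ t0, a t i = a t0 i)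
    (hA : D1 {i | ∃ t0, ∀ t ≥ t0, (a t i = true ↔ i ∈ A)}) (X : Set ℕ) (hX : IsDesc A X) :
    D1 {p | ∃ z ∈ X, ∃ v, RdB a p z v = true} := by
  obtain ⟨z0, hz0⟩ := hX.nonempty
  set U := {p | ∃ z ∈ X, ∃ v, RdB a p z v = true} with hU
  have hactive : ∀ n p, p ∈ J n → p ∉ U → Pn n p ∧ 0 < xN n ∧ act a (xN n) (sN n) = true := by
    intro n p hp hpU
    have h1 : ¬ (RdB a p z0 0 = true) := fun h => hpU ⟨z0, hz0, 0, h⟩
    rw [RdB_iff] at h1
    push Not at h1
    obtain ⟨n', h2, h3, h4, _⟩ := h1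
    have h5 := J_unique (Pn_mem_J h2) hp
    subst h5
    exact ⟨h2, h3, h4⟩
  apply D1_of_types
  · intro n
    rw [← Pn_card n]
    apply Set.ncard_le_ncard _ (Pn_fin n)
    rintro p ⟨hp1, hp2⟩
    exact (hactive n p hp2 hp1).1
  · intro e ε hε
    have hG := hX.dom.inter hA
    set G := {i : ℕ | ∃ j : ℕ, Nat.pair i j ∈ X} ∩ {i | ∃ t0, ∀ t ≥ t0, (a t i = true ↔ i ∈ A)}
      with hGdef
    obtain ⟨X0, hX0⟩ := (D1_iff G).1 hG (ε / 4) (by positivity)
    obtain ⟨S0, hS0⟩ := act_false hconv X0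
    -- n ≤ (ε/2) 2^n eventually
    obtain ⟨N1, hN1⟩ : ∃ N1 : ℕ, ∀ n ≥ N1, (n : ℝ) ≤ ε / 2 * 2 ^ n := by
      have h1 : Tendsto (fun n : ℕ => (n : ℝ) ^ 1 / 2 ^ n) atTop (nhds 0) :=
        tendsto_pow_const_div_const_pow_of_one_lt 1 (by norm_num)
      have h2 := (h1.eventually (gt_mem_nhds (show (0 : ℝ) < ε / 2 by positivity)))
      obtain ⟨N1, hN1⟩ := eventually_atTop.1 h2
      refine ⟨N1, fun n hn => ?_⟩
      have h3 := hN1 n hn
      rw [pow_one, div_lt_iff₀ (by positivity)] at h3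
      exact h3.le
    let T0 := (Finset.range X0).sup fun x => (Finset.range S0).sup fun s => Nat.pair x s
    refine ⟨max N1 (T0 + 1), fun t ht => ?_⟩
    set n := Nat.pair e t with hn
    have htn : t ≤ n := Nat.right_le_pair e t
    set x := xN n with hx
    set s := sN n with hs
    have hxt : x = t.unpair.1 := by rw [hx, hn]; simp [xN]
    have hst : s = t.unpair.2 := by rw [hs, hn]; simp [sN]
    have hpair : Nat.pair x s = t := by rw [hxt, hst]; exact Nat.pair_unpair t
    have hen : n.unpair.1 = e := by rw [hn]; simp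
    by_cases hact : 0 < x ∧ act a x s = true
    swap
    · have h1 : Uᶜ ∩ J n = ∅ := by
        rw [Set.eq_empty_iff_forall_notMem]
        rintro p ⟨hp1, hp2⟩
        exact hact (hactive n p hp2 hp1).2
      rw [h1]; simp; positivity
    obtain ⟨hx0, hact⟩ := hact
    have hxX0 : X0 ≤ x := by
      by_contra hlt
      push Not at hlt
      have hsS : s < S0 := by
        by_contra hge
        push Not at hge
        have := hS0 x hlt s hge
        rw [hact] at this; simp at this
      have h4 : Nat.pair x s ≤ (Finset.range S0).sup fun s => Nat.pair x s :=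
        Finset.le_sup (f := fun s => Nat.pair x s) (Finset.mem_range.2 hsS)
      have h5 : ((Finset.range S0).sup fun s => Nat.pair x s) ≤ T0 :=
        Finset.le_sup (f := fun x => (Finset.range S0).sup fun s => Nat.pair x s)
          (Finset.mem_range.2 hlt)
      omega
    classical
    let Bad : Finset ℕ := (Finset.range x).filter (fun i => i ∉ G)
    have hBad : (Bad.card : ℝ) ≤ ε / 4 * x := by
      have h1 := hX0 x hxX0
      have h2 : (Gᶜ ∩ Set.Iio x) = (Bad : Set ℕ) := by
        ext i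
        simp only [Bad, Set.mem_inter_iff, Set.mem_compl_iff, Set.mem_Iio, Finset.coe_filter,
          Finset.mem_range, Set.mem_ofPred_eq]
        tauto
      rw [h2, Set.ncard_coe_finset] at h1
      exact h1
    have hcover : Uᶜ ∩ J n ⊆ {p | Pn n p ∧ (p - 2 ^ n) % x ∈ Bad} ∪
        {p | Pn n p ∧ p ∉ U ∧ lab n p ∈ G} := by
      rintro p ⟨hp1, hp2⟩
      have h1 := (hactive n p hp2 hp1).1
      have hlt : lab n p < x := Nat.mod_lt _ hx0
      by_cases h2 : lab n p ∈ G
      · right; exact ⟨h1, hp1, h2⟩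
      · left
        refine ⟨h1, ?_⟩
        simp only [Bad, Finset.mem_filter, Finset.mem_range]
        exact ⟨hlt, h2⟩
    have hfin1 : {p | Pn n p ∧ (p - 2 ^ n) % x ∈ Bad}.Finite :=
      (Pn_fin n).subset fun p hp => hp.1
    have hfin2 : {p | Pn n p ∧ p ∉ U ∧ lab n p ∈ G}.Finite :=
      (Pn_fin n).subset fun p hp => hp.1
    have hc1 : {p | Pn n p ∧ (p - 2 ^ n) % x ∈ Bad}.ncard ≤ (2 ^ (n - e) / x + 1) * Bad.card := by
      rw [Pn_label_card, hen]
      exact count_le x _ Bad
    have hc2 : {p | Pn n p ∧ p ∉ U ∧ lab n p ∈ G}.ncard ≤ x := by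
      have h1 : {p | Pn n p ∧ p ∉ U ∧ lab n p ∈ G}.ncard ≤ (Set.Iio x).ncard := by
        apply Set.ncard_le_ncard_of_injOn (fun p => lab n p)
        · rintro p ⟨_, _, _⟩
          exact Nat.mod_lt _ hx0
        · -- at most one missing element for each label
          have key : ∀ p, Pn n p → p ∉ U → ∀ j, lab n p = j → ∀ c, Nat.pair j c ∈ X →
              ∀ v0, s ≤ v0 → a v0 j = decide (c = 1) →
              ∃ q < v0, fstq n j q = true ∧ q.unpair.1 = p := by
            intro p h1 h2 j hj c hc v0 hv0 hav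
            have h3 : ¬ (RdB a p (Nat.pair j c) v0 = true) := fun h => h2 ⟨_, hc, v0, h⟩
            rw [RdB_iff] at h3
            push Not at h3
            obtain ⟨n', h4, _, _, h5⟩ := h3
            have h6 := J_unique (Pn_mem_J h4) (Pn_mem_J h1)
            subst h6
            simp only [Nat.unpair_pair] at h5
            have h7 := h5 hj.symm hv0 hav
            have h8 : des n (lab n p) v0 p = true := by simpa using h7
            rw [hj] at h8
            exact des_true.1 h8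
          rintro p ⟨hp1, hp2, hp3⟩ p' ⟨hp1', hp2', hp3'⟩ heq
          simp only at heq
          obtain ⟨⟨c, hc⟩, ⟨t0, ht0⟩⟩ := hp3
          set j := lab n p with hj
          set v0 := max t0 s with hv0
          have hav : a v0 j = decide (c = 1) := by
            have h1 := ht0 v0 (le_max_left _ _)
            obtain ⟨i', c', hic, h4⟩ := hX.1 _ hc
            obtain ⟨h5, rfl⟩ := Nat.pair_eq_pair.1 hic
            rw [h5] at h1 ⊢
            rcases h4 with ⟨rfl, h4⟩ | ⟨rfl, h4⟩
            · simp [h1.2 h4]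
            · have : ¬ (a v0 i' = true) := fun h => h4 (h1.1 h)
              simpa using this
          obtain ⟨q, _, hq1, hq2⟩ := key p hp1 hp2 j hj.symm c hc v0 (le_max_right _ _) hav
          obtain ⟨q', _, hq1', hq2'⟩ := key p' hp1' hp2' j heq.symm c hc v0 (le_max_right _ _) hav
          have := fstq_unique hq1 hq1'
          rw [← hq2, ← hq2', this]
      have h2 : (Set.Iio x).ncard = x := by
        rw [Set.ncard_eq_toFinset_card' (Set.Iio x)]; simp
      omega
    have htotal : (Uᶜ ∩ J n).ncard ≤ (2 ^ (n - e) / x + 1) * Bad.card + x := by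
      refine le_trans (Set.ncard_le_ncard hcover (hfin1.union hfin2)) ?_
      refine le_trans (Set.ncard_union_le _ _) ?_
      omega
    have hxn : x ≤ n := by
      have : x ≤ t := by rw [← hpair]; exact Nat.left_le_pair x s
      omega
    have hxR : (0 : ℝ) < x := by exact_mod_cast hx0
    have h3 : ((Uᶜ ∩ J n).ncard : ℝ) ≤ (((2 ^ (n - e) / x : ℕ) : ℝ) + 1) * Bad.card + x := by
      exact_mod_cast htotal
    have h4 : (2 : ℝ) ^ (n - e) ≤ 2 ^ n := pow_le_pow_right₀ (by norm_num) (by omega)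
    have h5 : (x : ℝ) ≤ 2 ^ n := by
      have : x ≤ 2 ^ n := le_trans hxn (Nat.lt_two_pow_self).le
      exact_mod_cast this
    have h6 : (x : ℝ) ≤ ε / 2 * 2 ^ n := by
      have h7 : (x : ℝ) ≤ n := by exact_mod_cast hxn
      have h8 := hN1 n (by omega)
      linarith
    have h2 : ((2 ^ (n - e) / x : ℕ) : ℝ) ≤ (2 : ℝ) ^ (n - e) / x := by
      have := @Nat.cast_div_le ℝ _ _ _ (2 ^ (n - e)) x
      simpa using this
    have hB0 : (0 : ℝ) ≤ (Bad.card : ℝ) := Nat.cast_nonneg _
    exact final_bound ε ((Uᶜ ∩ J n).ncard : ℝ) ((2 ^ (n - e) / x : ℕ) : ℝ) (Bad.card : ℝ) (x : ℝ)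
      ((2 : ℝ) ^ (n - e)) ((2 : ℝ) ^ n) hε hxR hB0 h3 h2 hBad h4 h5 h6

end Pool.Agent.UGen
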