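import Pool.Agent.UGen.Case1b

set_option autoImplicit false
open Filter

namespace Pool.Agent.UGen

def condB (a : ℕ → ℕ → Bool) (e i w : ℕ) : Bool :=
  (act a w.unpair.1 w.unpair.2.unpair.1 && decide (i < w.unpair.1)) &&
    ((!bAll (fun q => !good (Nat.pair e (Nat.pair w.unpair.1 w.unpair.2.unpair.1)) i q)
        w.unpair.2.unpair.2) &&
      bAll (fun s' => !(decide (w.unpair.2.unpair.1 ≤ s')) ||
        (a s' i == a w.unpair.2.unpair.1 i)) w.unpair.2.unpair.2)

lemma condB_iff (a : ℕ → ℕ → Bool) (e i x s v : ℕ) :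
    condB a e i (Nat.pair x (Nat.pair s v)) = true ↔
      act a x s = true ∧ i < x ∧ (∃ q < v, good (Nat.pair e (Nat.pair x s)) i q = true) ∧
        ∀ s' < v, s ≤ s' → a s' i = a s i := by
  unfold condB
  simp only [Nat.unpair_pair, Bool.and_eq_true, decide_eq_true_eq, and_assoc]
  refine and_congr Iff.rfl (and_congr Iff.rfl (and_congr ?_ ?_))
  · rw [Bool.not_eq_true', ← Bool.not_eq_true, bAll_iff]
    push Not
    constructor
    · rintro ⟨q, h1, h2⟩
      exact ⟨q, h1, by simpa using h2⟩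
    · rintro ⟨q, h1, h2⟩
      exact ⟨q, h1, by simpa using h2⟩
  · rw [bAll_iff]
    constructor
    · intro h s' h1 h2
      have := h s' h1
      simpa [h2] using this
    · intro h s' h1
      by_cases h2 : s ≤ s'
      · simp [h s' h1 h2]
      · simp [h2]

lemma c_pair {α : Type} [Primcodable α] {f g : α → ℕ} (hf : Computable f) (hg : Computable g) :
    Computable fun x => Nat.pair (f x) (g x) := Primrec₂.natPair.to_comp.comp hf hg

lemma c_good {α : Type} [Primcodable α] {f1 f2 f3 : α → ℕ} (h1 : Computable f1)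
    (h2 : Computable f2) (h3 : Computable f3) :
    Computable fun x => good (f1 x) (f2 x) (f3 x) := by
  have h5 : Computable fun x => (f1 x, f2 x, f3 x) := h1.pair (h2.pair h3)
  exact Computable.comp (f := fun q : ℕ × ℕ × ℕ => good q.1 q.2.1 q.2.2)
    (g := fun x => (f1 x, f2 x, f3 x)) primrec_good.to_comp h5

lemma comp_condB {a : ℕ → ℕ → Bool} (ha : Computable₂ a) (e : ℕ) :
    Computable₂ fun i w : ℕ => condB a e i w := by
  have : Computable fun r : ℕ × ℕ => condB a e r.1 r.2 := by
    unfold condB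
    have hw : Computable fun r : ℕ × ℕ => r.2 := Computable.snd
    have hi : Computable fun r : ℕ × ℕ => r.1 := Computable.fst
    have hx := c_up1 hw
    have hs := c_up1 (c_up2 hw)
    have hv := c_up2 (c_up2 hw)
    have c1 := c_act ha hx hs
    have c2 := c_dlt hi hx
    have c3 : Computable fun r : ℕ × ℕ => bAll (fun q =>
        !good (Nat.pair e (Nat.pair r.2.unpair.1 r.2.unpair.2.unpair.1)) r.1 q)
        r.2.unpair.2.unpair.2 := by
      apply comp_bAll _ hv
      have hw' : Computable fun u : (ℕ × ℕ) × ℕ => u.1.2 := Computable.snd.comp Computable.fst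
      have hi' : Computable fun u : (ℕ × ℕ) × ℕ => u.1.1 := Computable.fst.comp Computable.fst
      have hq' : Computable fun u : (ℕ × ℕ) × ℕ => u.2 := Computable.snd
      have h := c_not (c_good (c_pair (Computable.const e) (c_pair (c_up1 hw')
        (c_up1 (c_up2 hw')))) hi' hq')
      exact h
    have c4 : Computable fun r : ℕ × ℕ => bAll (fun s' =>
        !(decide (r.2.unpair.2.unpair.1 ≤ s')) || (a s' r.1 == a r.2.unpair.2.unpair.1 r.1))
        r.2.unpair.2.unpair.2 := by
      apply comp_bAll _ hv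
      have hw' : Computable fun u : (ℕ × ℕ) × ℕ => u.1.2 := Computable.snd.comp Computable.fst
      have hi' : Computable fun u : (ℕ × ℕ) × ℕ => u.1.1 := Computable.fst.comp Computable.fst
      have hq' : Computable fun u : (ℕ × ℕ) × ℕ => u.2 := Computable.snd
      have h := c_or (c_not (c_dle (c_up1 (c_up2 hw')) hq'))
        (c_beq (c_a ha hq' hi') (c_a ha (c_up1 (c_up2 hw')) hi'))
      exact h
    have h := c_and (c_and c1 c2) (c_and (c_not c3) c4)
    exact h
  exact this

lemma case1_sparse (A : Set ℕ) (a : ℕ → ℕ → Bool) (ha : Computable₂ a)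
    (hconv : ∀ i, ∃ t0, ∀ t ≥ t0, a t i = a t0 i) (e : ℕ)
    (hW : ∀ p, W e p → ∃ z ∈ Gr A, ∃ v, RdB a p z v = true) (hD : D1 {p | W e p}) : GC A := by
  have hrf : Partrec fun i => Nat.rfind fun w => (Part.some (condB a e i w) : Part Bool) :=
    Partrec.rfind (comp_condB ha e).partrec₂
  have hout : Computable₂ fun (i w : ℕ) => a w.unpair.2.unpair.1 i := by
    have : Computable fun r : ℕ × ℕ => a r.2.unpair.2.unpair.1 r.1 :=
      c_a ha (c_up1 (c_up2 Computable.snd)) Computable.fst
    exact this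
  refine ⟨fun i => (Nat.rfind fun w => (Part.some (condB a e i w) : Part Bool)).map
    (fun w => a w.unpair.2.unpair.1 i), hrf.map hout, ?_, ?_⟩
  · intro i b hb
    rw [Part.mem_map_iff] at hb
    obtain ⟨w, hw, rfl⟩ := hb
    have h1 : condB a e i w = true := by
      have := Nat.rfind_spec hw
      simpa using this
    obtain ⟨x, s, v, rfl⟩ : ∃ x s v, w = Nat.pair x (Nat.pair s v) :=
      ⟨w.unpair.1, w.unpair.2.unpair.1, w.unpair.2.unpair.2, by simp⟩
    rw [condB_iff] at h1
    obtain ⟨hact, hix, ⟨q, hq, hgood⟩, hst⟩ := h1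
    simp only [Nat.unpair_pair]
    set n := Nat.pair e (Nat.pair x s) with hn
    -- the first good q
    classical
    have hex : ∃ q, good n i q = true := ⟨q, hgood⟩
    set q0 := Nat.find hex with hq0
    have hq0v : q0 < v := lt_of_le_of_lt (Nat.find_min' hex hgood) hq
    have hfst : fstq n i q0 = true := by
      unfold fstq
      simp only [Bool.and_eq_true, bAll_iff, Bool.not_eq_true']
      refine ⟨Nat.find_spec hex, fun q' hq' => ?_⟩
      have := Nat.find_min hex hq'
      simpa using this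
    have hg0 := (good_iff n i q0).1 (Nat.find_spec hex)
    obtain ⟨hPn, hlab, hWs⟩ := hg0
    have hen : n.unpair.1 = e := by rw [hn]; simp
    have hxn : xN n = x := by rw [hn]; simp [xN]
    have hsn : sN n = s := by rw [hn]; simp [sN]
    rw [hen] at hWs
    obtain ⟨z, hz, v', hR⟩ := hW _ ⟨_, hWs⟩
    rw [RdB_iff] at hR
    obtain ⟨h2, h3, h4, h5⟩ := hR n hPn (by rw [hxn]; omega) (by rw [hxn, hsn]; exact hact)
    rw [hlab] at h2 h5
    rw [hsn] at h3
    have h6 : v' ≤ q0 := by
      by_contra hlt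
      push Not at hlt
      have : des n i v' q0.unpair.1 = true := des_true.2 ⟨q0, hlt, hfst, rfl⟩
      rw [this] at h5; simp at h5
    have h7 := hst v' (by omega) h3
    rw [h2, h7] at h4
    rw [h4]
    obtain ⟨i', j', rfl, h8⟩ := hz
    simp only [Nat.unpair_pair] at h2 ⊢
    subst h2
    rcases h8 with ⟨rfl, h8⟩ | ⟨rfl, h8⟩
    · simp [h8]
    · simp [h8]
  · show D1 _
    rw [D1_iff]
    intro ε hε
    obtain ⟨N, hN⟩ := block_of_D1 hD (ε / 2 * (1 / 2) ^ e) (by positivity)
    refine ⟨max N 1, fun x hx => ?_⟩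
    obtain ⟨s, hact, hstab⟩ := exists_true_stage hconv x
    set n := Nat.pair e (Nat.pair x s) with hn
    have hxp : x ≤ Nat.pair x s := Nat.left_le_pair x s
    have hnp : e + Nat.pair x s ≤ n := Nat.add_le_pair e _
    have hen : n.unpair.1 = e := by rw [hn]; simp
    have hxn : xN n = x := by rw [hn]; simp [xN]
    have hsn : sN n = s := by rw [hn]; simp [sN]
    have h1 := hN n (by omega)
    classical
    let Dm : Set ℕ := {i : ℕ | ((Nat.rfind fun w => (Part.some (condB a e i w) : Part Bool)).map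
      (fun w => a w.unpair.2.unpair.1 i)).Dom}
    let Bad : Finset ℕ := (Finset.range x).filter (fun i => i ∉ Dm)
    have hBadeq : (Dmᶜ ∩ Set.Iio x) = (Bad : Set ℕ) := by
      ext i
      simp only [Bad, Set.mem_inter_iff, Set.mem_compl_iff, Set.mem_Iio, Finset.coe_filter,
        Finset.mem_range, Set.mem_ofPred_eq]
      tauto
    have hsub : {p | Pn n p ∧ (p - 2 ^ n) % x ∈ Bad} ⊆ ({p | W e p}ᶜ ∩ J n) := by
      rintro p ⟨hp1, hp2⟩
      refine ⟨?_, Pn_mem_J hp1⟩
      rintro ⟨u, hu⟩
      simp only [Bad, Finset.mem_filter, Finset.mem_range] at hp2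
      apply hp2.2
      set i := (p - 2 ^ n) % x with hi
      have hgood : good n i (Nat.pair p u) = true := by
        rw [good_iff]
        simp only [Nat.unpair_pair]
        refine ⟨hp1, ?_, ?_⟩
        · unfold lab; rw [hxn]
        · rw [hen]; exact hu
      have hc : condB a e i (Nat.pair x (Nat.pair s (Nat.pair p u + 1))) = true := by
        rw [condB_iff]
        refine ⟨hact, hp2.1, ⟨Nat.pair p u, by omega, hgood⟩, ?_⟩
        intro s' _ hs'
        exact hstab s' hs' i hp2.1
      show ((Nat.rfind fun w => (Part.some (condB a e i w) : Part Bool)).map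
        (fun w => a w.unpair.2.unpair.1 i)).Dom
      rw [Part.map_Dom]
      refine (Nat.rfind_dom (p := fun w => (Part.some (condB a e i w) : Part Bool))).2 ?_
      exact ⟨_, by simpa using hc.symm, fun _ => trivial⟩
    have h2 := Set.ncard_le_ncard hsub ((J_fin n).subset Set.inter_subset_right)
    rw [Pn_label_card, hen] at h2
    have h3 := count_ge x (2 ^ (n - e)) Bad (by
      intro j hj
      simp only [Bad, Finset.mem_filter, Finset.mem_range] at hj
      exact hj.1)
    have h4 : 2 ^ (n - e) / x * Bad.card ≤ ({p | W e p}ᶜ ∩ J n).ncard := le_trans h3 h2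
    have h5 : ((2 ^ (n - e) / x : ℕ) : ℝ) * Bad.card ≤ ε / 2 * (1 / 2) ^ e * 2 ^ n := by
      refine le_trans ?_ h1
      exact_mod_cast h4
    have h6 : (2 : ℝ) ^ n = 2 ^ (n - e) * 2 ^ e := by rw [← pow_add]; congr 1; omega
    have h7 : ε / 2 * (1 / 2) ^ e * (2 : ℝ) ^ n = ε / 2 * 2 ^ (n - e) := by
      rw [h6, one_div, inv_pow]; field_simp
    rw [h7] at h5
    have hx1 : 1 ≤ x := le_trans (le_max_right _ _) hx
    have hMx : x ≤ 2 ^ (n - e) := by
      have : x < 2 ^ x := Nat.lt_two_pow_self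
      have : 2 ^ x ≤ 2 ^ (n - e) := Nat.pow_le_pow_right (by norm_num) (by omega)
      omega
    have h8 : 2 ^ (n - e) ≤ 2 * x * (2 ^ (n - e) / x) := by
      set M := 2 ^ (n - e) with hM
      have h9 : M = x * (M / x) + M % x := (Nat.div_add_mod M x).symm
      have h10 : M % x < x := Nat.mod_lt _ hx1
      have h11 : 1 ≤ M / x := (Nat.one_le_div_iff hx1).2 hMx
      have h12 : x ≤ x * (M / x) := Nat.le_mul_of_pos_right _ h11
      have h13 : 2 * x * (M / x) = x * (M / x) + x * (M / x) := by ring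
      omega
    have h9 : ((2 : ℝ) ^ (n - e)) ≤ 2 * x * ((2 ^ (n - e) / x : ℕ) : ℝ) := by
      exact_mod_cast h8
    show ((Dmᶜ ∩ Set.Iio x).ncard : ℝ) ≤ ε * x
    rw [hBadeq, Set.ncard_coe_finset]
    have hB0 : (0 : ℝ) ≤ (Bad.card : ℝ) := Nat.cast_nonneg _
    have hP : (0 : ℝ) < (2 : ℝ) ^ (n - e) := by positivity
    have h10 : (2 : ℝ) ^ (n - e) * Bad.card ≤ 2 * x * (ε / 2 * 2 ^ (n - e)) := by
      calc (2 : ℝ) ^ (n - e) * Bad.card
          ≤ (2 * x * ((2 ^ (n - e) / x : ℕ) : ℝ)) * Bad.card :=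
            mul_le_mul_of_nonneg_right h9 hB0
        _ = 2 * x * (((2 ^ (n - e) / x : ℕ) : ℝ) * Bad.card) := by ring
        _ ≤ 2 * x * (ε / 2 * 2 ^ (n - e)) := by
            apply mul_le_mul_of_nonneg_left h5 (by positivity)
    have h11 : (2 : ℝ) ^ (n - e) * Bad.card ≤ (2 : ℝ) ^ (n - e) * (ε * x) := by
      linarith
    exact le_of_mul_le_mul_left h11 hP

theorem case1 (A : Set ℕ) (hA : ¬ GC A) (a : ℕ → ℕ → Bool) (ha : Computable₂ a)
    (hconv : ∀ i, ∃ t0, ∀ t ≥ t0, a t i = a t0 i)
    (hAa : D1 {i | ∃ t0, ∀ t ≥ t0, (a t i = true ↔ i ∈ A)}) : Concl A := by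
  refine reduce A (fun p z => ∃ v, RdB a p z v = true) (REPred.ex (comp_RdB ha)) ?_ ?_
  · intro X hX
    exact case1_dense A a hconv hAa X hX
  · intro e hW hD
    exact hA (case1_sparse A a ha hconv e hW hD)

end Pool.Agent.UGen
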