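import Pool.Agent.UGen.Stack

set_option autoImplicit false
open Filter

namespace Pool.Agent.UGen

/-- shifted set (the bottom level is a sentinel) -/
def sh (A : Set ℕ) : Set ℕ := {k | ∃ i ∈ A, k = i + 1}

/-- the (reversed) string agrees with `A'` -/
def Ag (A' : Set ℕ) : List (Bool × ℕ) → Prop
  | [] => True
  | x :: l => (x.1 = true ↔ l.length ∈ A') ∧ Ag A' l

/-- the (reversed) string is lexicographically to the left of `A'` -/
def Lt (A' : Set ℕ) : List (Bool × ℕ) → Prop
  | [] => False
  | x :: l => Lt A' l ∨ (Ag A' l ∧ x.1 = false ∧ l.length ∈ A')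

lemma bit_of_suffix {τ σ : List (Bool × ℕ)} (h : τ <:+ σ) {j : ℕ} (hj : j < τ.length) :
    bit σ j = bit τ j := by
  obtain ⟨pre, rfl⟩ := h
  unfold bit
  rw [List.reverse_append, List.getElem?_append_left (by simpa using hj)]

lemma bit_cons_len (x : Bool × ℕ) (l : List (Bool × ℕ)) : bit (x :: l) l.length = some x.1 := by
  unfold bit
  rw [List.reverse_cons, List.getElem?_append_right (by simp)]
  simp

lemma bit_none {σ : List (Bool × ℕ)} {j : ℕ} (h : σ.length ≤ j) : bit σ j = none := by
  unfold bit
  rw [List.getElem?_eq_none (by simpa using h)]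
  rfl

lemma Ag_bit {A' : Set ℕ} : ∀ {σ : List (Bool × ℕ)}, Ag A' σ → ∀ {j : ℕ} {b : Bool},
    bit σ j = some b → (b = true ↔ j ∈ A') := by
  intro σ
  induction σ with
  | nil => intro _ j b h; simp [bit] at h
  | cons x l ih =>
    intro h j b hb
    obtain ⟨h1, h2⟩ := h
    rcases lt_trichotomy j l.length with hj | hj | hj
    · rw [bit_of_suffix (List.suffix_cons x l) hj] at hb
      exact ih h2 hb
    · subst hj
      rw [bit_cons_len] at hb
      simp only [Option.some.injEq] at hb
      rw [← hb]; exact h1
    · rw [bit_none (by simpa using hj)] at hb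
      simp at hb

lemma conf_not_Ag {A : Set ℕ} {σ : List (Bool × ℕ)} {z : ℕ} (hz : z ∈ Gr A)
    (hc : conf σ z = true) : ¬ Ag (sh A) σ := by
  intro hag
  unfold conf at hc
  simp only [Bool.or_eq_true, decide_eq_true_eq] at hc
  rcases hc with hc | hc
  · have h1 := (Ag_bit hag hc).1 rfl
    obtain ⟨i, _, hi⟩ := h1
    omega
  · obtain ⟨i, c, rfl, h⟩ := hz
    simp only [Nat.unpair_pair] at hc
    have h1 := Ag_bit hag hc
    have h2 : i + 1 ∈ sh A ↔ i ∈ A := by
      unfold sh
      constructor
      · rintro ⟨k, hk, hk'⟩
        have : i = k := by omega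
        rw [this]; exact hk
      · intro hi; exact ⟨i, hi, rfl⟩
    rw [h2] at h1
    rcases h with ⟨rfl, hi⟩ | ⟨rfl, hi⟩
    · simp at h1; exact h1 hi
    · simp at h1; exact hi h1

def Le (A' : Set ℕ) (l : List (Bool × ℕ)) : Prop := Ag A' l ∨ Lt A' l

lemma Le_tail {A' : Set ℕ} {x : Bool × ℕ} {l : List (Bool × ℕ)} (h : Le A' (x :: l)) :
    Le A' l := by
  rcases h with h | h
  · exact Or.inl h.2
  · rcases h with h | h
    · exact Or.inr h
    · exact Or.inl h.1

lemma Le_suffix {A' : Set ℕ} {τ σ : List (Bool × ℕ)} (h : τ <:+ σ) (hσ : Le A' σ) :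
    Le A' τ := by
  obtain ⟨pre, rfl⟩ := h
  induction pre with
  | nil => simpa using hσ
  | cons x pre ih => exact ih (Le_tail hσ)

lemma Lt_dropTrue {A' : Set ℕ} : ∀ {l : List (Bool × ℕ)}, Lt A' l →
    ∃ s rest, l.dropWhile (fun x => x.1) = (false, s) :: rest ∧ Lt A' ((false, s) :: rest) := by
  intro l
  induction l with
  | nil => intro h; exact absurd h (by simp [Lt])
  | cons x l ih =>
    intro h
    obtain ⟨b, s⟩ := x
    cases b
    · exact ⟨s, l, by simp, h⟩
    · have h1 : Lt A' l := by
        rcases h with h | h
        · exact h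
        · exact absurd h.2.1 (by simp)
      obtain ⟨s', rest, h2, h3⟩ := ih h1
      exact ⟨s', rest, by simpa using h2, h3⟩

lemma dropWhile_head {α : Type} {p : α → Bool} {l : List α} {x : α} {rest : List α}
    (h : l.dropWhile p = x :: rest) : p x = false := by
  induction l with
  | nil => simp at h
  | cons y l ih =>
    rw [List.dropWhile_cons] at h
    by_cases hy : p y = true
    · rw [if_pos hy] at h; exact ih h
    · rw [if_neg hy] at h
      have h1 : y = x := by
        have := congrArg List.head? h
        simpa using this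
      rw [← h1]; simpa using hy

lemma step_cases (e t : ℕ) (st : List (Bool × ℕ)) :
    (step e t st = (false, t + 1) :: st ∧ ∀ x ∈ st, hit e x.2 t = false) ∨
    ∃ b s rest, ((b, s) :: rest) <:+ st ∧ hit e s t = true ∧
      step e t st = (true, t + 1) :: (((b, s) :: rest).dropWhile (fun x => x.1)).tail := by
  unfold step
  cases h : st.dropWhile (fun x => !hit e x.2 t) with
  | nil =>
    left
    refine ⟨by simp, ?_⟩
    intro x hx
    have := List.dropWhile_eq_nil_iff.1 h x hx
    simpa using this
  | cons y rest =>
    right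
    obtain ⟨b, s⟩ := y
    refine ⟨b, s, rest, ?_, ?_, ?_⟩
    · rw [← h]; exact List.dropWhile_suffix _
    · have := dropWhile_head h
      simpa using this
    · simp

/-- good steps: push, or flip a zero into a one -/
def GoodStep (S : ℕ → List (Bool × ℕ)) (t : ℕ) : Prop :=
  S (t + 1) = (false, t + 1) :: S t ∨
    ∃ s rest, ((false, s) :: rest) <:+ S t ∧ S (t + 1) = (true, t + 1) :: rest

lemma birth (e : ℕ) : ∀ t, ∀ b s rest, ((b, s) :: rest) <:+ St e t → St e s = (b, s) :: rest := by
  intro t
  induction t with
  | zero =>
    intro b s rest h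
    simp only [St] at h
    rw [List.suffix_cons_iff] at h
    rcases h with h | h
    · have h1 : b = false ∧ s = 0 ∧ rest = [] := by simpa [and_assoc] using h
      obtain ⟨rfl, rfl, rfl⟩ := h1
      rfl
    · simp at h
  | succ t ih =>
    intro b s rest h
    have hS : St e (t + 1) = step e t (St e t) := rfl
    rcases step_cases e t (St e t) with ⟨h1, _⟩ | ⟨b', s', rest', h2, h3, h4⟩
    · rw [hS, h1, List.suffix_cons_iff] at h
      rcases h with h | h
      · have h5 : s = t + 1 := by
          have := congrArg List.head? h
          simp at this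
          exact this.2
        rw [h5, hS, h1, ← h, h5]
      · exact ih b s rest h
    · rw [hS, h4, List.suffix_cons_iff] at h
      rcases h with h | h
      · have h5 : s = t + 1 := by
          have := congrArg List.head? h
          simp at this
          exact this.2
        rw [h5, hS, h4, ← h, h5]
      · apply ih b s rest
        refine h.trans ?_
        refine (List.tail_suffix _).trans ?_
        exact (List.dropWhile_suffix _).trans h2

lemma inv {e : ℕ} {A' : Set ℕ} (h0 : 0 ∉ A')
    (H : ∀ s t, hit e s t = true → ¬ Ag A' (St e s)) :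
    ∀ t, Le A' (St e t) ∧ GoodStep (St e) t := by
  have key : ∀ t, Le A' (St e t) → Le A' (St e (t + 1)) ∧ GoodStep (St e) t := by
    intro t ht
    have hS : St e (t + 1) = step e t (St e t) := rfl
    rcases step_cases e t (St e t) with ⟨h1, _⟩ | ⟨b, s, rest, h2, h3, h4⟩
    · refine ⟨?_, Or.inl (by rw [hS, h1])⟩
      rw [hS, h1]
      rcases ht with ht | ht
      · by_cases hl : (St e t).length ∈ A'
        · exact Or.inr (Or.inr ⟨ht, rfl, hl⟩)
        · exact Or.inl ⟨by simp [hl], ht⟩
      · exact Or.inr (Or.inl ht)
    · have h5 : Lt A' ((b, s) :: rest) := by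
        rcases Le_suffix h2 ht with h6 | h6
        · exfalso
          apply H s t h3
          rw [birth e t b s rest h2]; exact h6
        · exact h6
      obtain ⟨s', rest', h6, h7⟩ := Lt_dropTrue h5
      have h8 : St e (t + 1) = (true, t + 1) :: rest' := by
        rw [hS, h4, h6]; rfl
      refine ⟨?_, Or.inr ⟨s', rest', ?_, h8⟩⟩
      · rw [h8]
        rcases h7 with h7 | ⟨h7, _, h9⟩
        · exact Or.inr (Or.inl h7)
        · exact Or.inl ⟨by simp [h9], h7⟩
      · rw [← h6]; exact (List.dropWhile_suffix _).trans h2
  have key2 : ∀ t, Le A' (St e t) := by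
    intro t
    induction t with
    | zero =>
      left
      exact ⟨by simp [h0], trivial⟩
    | succ t ih => exact (key t ih).1
  exact fun t => ⟨key2 t, (key t (key2 t)).2⟩

/-! ### stabilisation -/

lemma suffix_eq {α : Type} {a b c : List α} (ha : a <:+ c) (hb : b <:+ c)
    (h : a.length = b.length) : a = b :=
  List.IsSuffix.eq_of_length (List.suffix_of_suffix_length_le ha hb h.le) h

lemma stab {S : ℕ → List (Bool × ℕ)} (hS : ∀ t, GoodStep S t) :
    ∀ i, ∃ τ : List (Bool × ℕ), τ.length = i ∧ ∃ t0, ∀ t ≥ t0, τ <:+ S t := by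
  intro i
  induction i with
  | zero => exact ⟨[], rfl, 0, fun t _ => List.nil_suffix⟩
  | succ i ih =>
    obtain ⟨τ, hτ, t0, ht0⟩ := ih
    -- after a flip at time t ≥ t0 the remaining stack has length ≥ i
    have hrest : ∀ t ≥ t0, ∀ s rest, ((false, s) :: rest) <:+ S t →
        S (t + 1) = (true, t + 1) :: rest → i ≤ rest.length := by
      intro t ht s rest h1 h2
      by_contra hlt
      push Not at hlt
      have h3 := ht0 (t + 1) (by omega)
      have h4 := h3.length_le
      rw [h2] at h3 h4
      simp only [List.length_cons] at h4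
      have h5 : rest.length + 1 = i := by omega
      have h6 : τ = (true, t + 1) :: rest := h3.eq_of_length (by simp [hτ, h5])
      have h7 : τ = (false, s) :: rest := suffix_eq (ht0 t ht) h1 (by simp [hτ, h5])
      rw [h6] at h7
      simp at h7
    have hlen : ∀ t ≥ t0 + 1, i + 1 ≤ (S t).length := by
      intro t ht
      obtain ⟨u, rfl⟩ : ∃ u, t = u + 1 := ⟨t - 1, by omega⟩
      rcases hS u with h1 | ⟨s, rest, h1, h2⟩
      · rw [h1]
        have := (ht0 u (by omega)).length_le
        simp only [List.length_cons]; omega
      · rw [h2]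
        have := hrest u (by omega) s rest h1 h2
        simp only [List.length_cons]; omega
    have hx : ∀ t ≥ t0 + 1, ∃ x, (x :: τ) <:+ S t := by
      intro t ht
      have h1 := ht0 t (by omega)
      have h2 := hlen t ht
      obtain ⟨pre, hpre⟩ := h1
      have h3 : pre ≠ [] := by
        rintro rfl
        rw [← hpre] at h2
        simp at h2; omega
      refine ⟨pre.getLast h3, pre.dropLast, ?_⟩
      rw [← hpre]
      conv_rhs => rw [← List.dropLast_append_getLast h3]
      simp
    have hchange : ∀ t ≥ t0 + 1, ∀ x, (x :: τ) <:+ S t →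
        ((x :: τ) <:+ S (t + 1) ∨ (x.1 = false ∧ ((true, t + 1) :: τ) <:+ S (t + 1))) := by
      intro t ht x hxt
      rcases hS t with h1 | ⟨s, rest, h1, h2⟩
      · left; rw [h1]; exact hxt.trans (List.suffix_cons _ _)
      · have h3 := hrest t (by omega) s rest h1 h2
        rcases Nat.lt_or_ge i rest.length with h4 | h4
        · left
          rw [h2]
          have h5 : rest <:+ S t := (List.suffix_cons _ _).trans h1
          have h6 : (x :: τ) <:+ rest :=
            List.suffix_of_suffix_length_le hxt h5 (by simp; omega)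
          exact h6.trans (List.suffix_cons _ _)
        · right
          have h5 : rest.length = τ.length := by omega
          have h6 : ((false, s) :: rest) = x :: τ :=
            suffix_eq h1 hxt (by simp [h5])
          have h7 : (false, s) = x := by
            have := congrArg List.head? h6
            simpa using this
          have h8 : rest = τ := by
            have := congrArg List.tail h6
            simpa using this
          refine ⟨by rw [← h7], ?_⟩
          rw [h2, h8]
    by_cases hex : ∃ t1 ≥ t0 + 1, ∃ x : Bool × ℕ, x.1 = true ∧ (x :: τ) <:+ S t1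
    · obtain ⟨t1, ht1, x, hx1, hx2⟩ := hex
      refine ⟨x :: τ, by simp [hτ], t1, ?_⟩
      intro t ht
      induction t, ht using Nat.le_induction with
      | base => exact hx2
      | succ t ht ih =>
        rcases hchange t (by omega) x ih with h | ⟨h, _⟩
        · exact h
        · rw [hx1] at h; simp at h
    · push Not at hex
      obtain ⟨x, hx0⟩ := hx (t0 + 1) le_rfl
      refine ⟨x :: τ, by simp [hτ], t0 + 1, ?_⟩
      intro t ht
      induction t, ht using Nat.le_induction with
      | base => exact hx0
      | succ t ht ih =>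
        rcases hchange t (by omega) x ih with h | ⟨h, h'⟩
        · exact h
        · exact absurd h' (hex (t + 1) (by omega) _ rfl)

end Pool.Agent.UGen
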